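import Pool.Agent.Helper62.RO.Base

/-!
# Universally good systems of equations
-/

namespace Pool.Agent.Helper62.RO

open TensorProduct
open Pool.Agent.Helper62.TS

variable {k : Type} [Field k]

/-- affine space -/
@[reducible] def Aff (ι : Type) : Fun k where
  obj W _ _ := ι → W
  map f x := fun i => f (x i)
  id_map _ := rfl
  comp_map _ _ _ := rfl

/-- coordinates -/
def crd {ι : Type} (i : ι) : Crd (Aff (k := k) ι) where
  val _ _ _ x := x i
  nat _ _ := rfl

/-- values of polynomials -/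
noncomputable def Crd.poly {E : Fun k} {ι : Type} (z : ι → Crd E) (f : MvPolynomial ι k) :
    Crd E where
  val W _ _ x := MvPolynomial.aeval (fun i => (z i).val W x) f
  nat {W V} _ _ _ _ g x := by
    have h1 := MvPolynomial.comp_aeval_apply (f := fun i => (z i).val W x) g f
    rw [h1]
    congr 2
    funext i
    exact (z i).nat g x

theorem rep_aff (ι : Type) :
    Rep (Aff (k := k) ι) (fun _ _ _ _ => True) (MvPolynomial ι k) MvPolynomial.X := by
  refine ⟨fun _ _ _ _ => trivial, ?_, ?_⟩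
  · intro W _ _ x _
    refine ⟨MvPolynomial.aeval x, ?_⟩
    funext i
    exact MvPolynomial.aeval_X x i
  · intro W _ _ f g hfg
    apply MvPolynomial.algHom_ext
    intro i
    exact congrFun hfg i

theorem good_ft_aff (ι : Type) [Finite ι] : Good (Ft k) (Aff ι) (fun _ _ _ _ => True) :=
  ⟨_, _, _, _, rep_aff ι, (inferInstance : Algebra.FiniteType k (MvPolynomial ι k))⟩

/-- the solutions of a system of polynomial equations -/
def VS {ι : Type} (S : Set (MvPolynomial ι k)) : Pr (Aff (k := k) ι) :=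
  fun _ _ _ x => ∀ f ∈ S, MvPolynomial.aeval x f = 0

/-- A system of equations is universally good if for all functions `z` on a functor `E` with
torus action and good special fibres the pullback is good. -/
def UG (Adm : ℕ → Prop) (M : Cls k) {ι : Type} (S : Set (MvPolynomial ι k)) : Prop :=
  ∀ (E : Fun k) (p : Pr E) (z : ι → Crd E) (m : ι → ℕ), Good (Ft k) E p →
    (∀ l, Adm (m l)) → Nonempty (Act E p z m) →
    (∀ ε : ι → Bool, Good M E (fun W _ _ x => p W x ∧ ∀ l, (z l).val W x = bt W (ε l))) →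
    Good M E (fun W _ _ x => p W x ∧ VS S W (fun l => (z l).val W x))

variable {Adm : ℕ → Prop} {M : Cls k}

theorem good_ft_vs {E : Fun k} {p : Pr E} (h : Good (Ft k) E p) {ι : Type} (z : ι → Crd E)
    (S : Set (MvPolynomial ι k)) :
    Good (Ft k) E (fun W _ _ x => p W x ∧ VS S W (fun l => (z l).val W x)) :=
  (h.ft_cls (fun f : S => Crd.poly z f.1)).congr (fun W _ _ x => by
    constructor
    · rintro ⟨h1, h2⟩
      exact ⟨h1, fun f hf => h2 ⟨f, hf⟩⟩
    · rintro ⟨h1, h2⟩
      exact ⟨h1, fun f => h2 f.1 f.2⟩)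

theorem rep_vs {ι : Type} (S : Set (MvPolynomial ι k)) :
    ∃ a, Rep (Aff (k := k) ι) (VS S) (MvPolynomial ι k ⧸ Ideal.span S) a := by
  have h1 := (rep_aff (k := k) ι).cls (fun f : S => Crd.poly crd f.1)
  have h2 : (Set.range fun j : S => (Crd.poly (crd (k := k)) j.1).val (MvPolynomial ι k)
      MvPolynomial.X) = S := by
    ext f
    constructor
    · rintro ⟨g, rfl⟩
      change MvPolynomial.aeval _ g.1 ∈ S
      have : MvPolynomial.aeval (fun i => (crd (k := k) i).val (MvPolynomial ι k) MvPolynomial.X)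
          g.1 = g.1 := MvPolynomial.aeval_X_left_apply g.1
      rw [this]
      exact g.2
    · intro hf
      exact ⟨⟨f, hf⟩, MvPolynomial.aeval_X_left_apply f⟩
  rw [h2] at h1
  refine ⟨_, ⟨fun W _ _ f => ?_, fun W _ _ x hx => h1.ex W x ⟨trivial, fun f => hx f.1 f.2⟩,
    h1.uniq⟩⟩
  intro f hf
  exact (h1.mem W _).2 ⟨f, hf⟩

theorem ug_of_bs {ι : Type} {S : Set (MvPolynomial ι k)} (h : Bs Adm M (Aff ι) (VS S) crd) :
    UG Adm M S := by
  intro E p z m hE hm ha hε
  refine (h E p z m hE hm ha hε).iso (E' := E) (fun W _ _ (x : (E.prod (Aff ι)).obj W) => x.1)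
    (fun W _ _ (x : E.obj W) => (x, fun l => (z l).val W x)) ?_ ?_ ?_ (fun _ _ _ _ _ => rfl)
    (fun _ _ _ _ _ _ _ _ _ => rfl)
  · rintro W _ _ ⟨x, y⟩ ⟨⟨h1, h2⟩, h3⟩
    refine ⟨h1, ?_⟩
    have h4 : (fun l => (z l).val W x) = y := funext h3
    rw [h4]
    exact h2
  · rintro W _ _ x ⟨h1, h2⟩
    exact ⟨⟨h1, h2⟩, fun l => rfl⟩
  · rintro W _ _ ⟨x, y⟩ ⟨⟨h1, h2⟩, h3⟩
    exact Prod.ext rfl (funext h3)

theorem ug_curve (hM : KClass k Adm M) {ι : Type} [Finite ι] {S : Set (MvPolynomial ι k)}
    (h : ringKrullDim (MvPolynomial ι k ⧸ Ideal.span S) ≤ 1) : UG Adm M S := by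
  obtain ⟨a, ha⟩ := rep_vs S
  exact ug_of_bs (bs_curve hM ⟨_, _, _, a, ha, inferInstance, h⟩ crd)

/-- natural homomorphisms of tori -/
structure TorHom (Λ' Λ : Type) where
  /-- the homomorphism -/
  φ : ∀ (W : Type) [CommRing W], (Λ' → Wˣ) → (Λ → Wˣ)
  nat : ∀ (W V : Type) [CommRing W] [CommRing V] (f : W →+* V) (u : Λ' → Wˣ),
    (fun l => Units.map (f : W →* V) (φ W u l)) = φ V (fun l => Units.map (f : W →* V) (u l))
  inv : ∀ (W : Type) [CommRing W] (u : Λ' → Wˣ), φ W u⁻¹ = (φ W u)⁻¹

/-- pulling back torus actions -/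
def Act.gen {E : Fun k} {p : Pr E} {Λ : Type} {z : Λ → Crd E} {m : Λ → ℕ} (a : Act E p z m)
    {Λ' : Type} (c : TorHom Λ' Λ) (p' : Pr E) (z' : Λ' → Crd E) (m' : Λ' → ℕ)
    (hp : ∀ (W : Type) [CommRing W] [Algebra k W] (x : E.obj W), p' W x → p W x)
    (hpres : ∀ (W : Type) [CommRing W] [Algebra k W] (u : Λ' → Wˣ) (x : E.obj W), p' W x →
      p' W (a.act W (c.φ W u) x))
    (heq : ∀ (W : Type) [CommRing W] [Algebra k W] (u : Λ' → Wˣ) (x : E.obj W), p' W x →
      ∀ l, (z' l).val W (a.act W (c.φ W u) x) = ((u l ^ m' l : Wˣ) : W) * (z' l).val W x) :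
    Act E p' z' m' where
  act W _ _ u x := a.act W (c.φ W u) x
  nat W V _ _ _ _ f u x hx := by
    rw [a.nat W V f _ _ (hp W x hx)]
    congr 1
    exact c.nat W V (f : W →+* V) u
  pres := hpres
  inv W _ _ u x hx := by
    rw [c.inv]
    exact a.inv W _ x (hp W x hx)
  eq := heq

/-- powers -/
def TorHom.pow {Λ : Type} (e : Λ → ℕ) : TorHom Λ Λ where
  φ W _ u := fun l => u l ^ e l
  nat W V _ _ f u := by
    funext l
    rw [map_pow]
  inv W _ u := by
    funext l
    simp

/-- uniform weights -/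
theorem Act.uniform {E : Fun k} {p : Pr E} {Λ : Type} [Fintype Λ] [DecidableEq Λ]
    {z : Λ → Crd E} {m : Λ → ℕ}
    (a : Act E p z m) : Nonempty (Act E p z (fun _ => ∏ l, m l)) := by
  refine ⟨a.gen (TorHom.pow fun l => ∏ j ∈ Finset.univ.erase l, m j) p z _ (fun _ _ _ _ h => h)
    (fun W _ _ u x hx => a.pres W _ x hx) ?_⟩
  intro W _ _ u x hx l
  rw [a.eq W _ x hx]
  change (((u l ^ ∏ j ∈ Finset.univ.erase l, m j) ^ m l : Wˣ) : W) * _ = _
  rw [← pow_mul, Finset.prod_erase_mul _ _ (Finset.mem_univ l)]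

theorem KClass.adm_prod (hM : KClass k Adm M) {Λ : Type} (s : Finset Λ) (m : Λ → ℕ)
    (h : ∀ l, Adm (m l)) : Adm (∏ l ∈ s, m l) := by
  classical
  induction s using Finset.induction_on with
  | empty => simpa using hM.adm_one
  | insert a s ha ih =>
    rw [Finset.prod_insert ha]
    exact hM.adm_mul _ _ (h a) ih

/-- the functional equation of homogeneous polynomials -/
def FE {ι : Type} (f : MvPolynomial ι k) (w : ι → ℤ) (d : ℕ) : Prop :=
  ∀ (W : Type) [CommRing W] [Algebra k W] (u : Wˣ) (x : ι → W),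
    MvPolynomial.aeval (fun i => ((u ^ w i : Wˣ) : W) * x i) f =
      ((u ^ d : Wˣ) : W) * MvPolynomial.aeval x f

/-- homogeneous polynomials whose special fibres are universally good -/
structure Node (Adm : ℕ → Prop) (M : Cls k) {ι : Type} (g : MvPolynomial ι k) (d : ℕ) :
    Prop where
  adm : Adm d
  fe : ∃ w, FE g w d
  zero : UG Adm M {g}
  one : UG Adm M {g - 1}

theorem Node.ug {ι : Type} {g : MvPolynomial ι k} {d : ℕ} (h : Node Adm M g d) (b : Bool)
    {E : Fun k} {p : Pr E} {z : ι → Crd E} {m : ι → ℕ} (hE : Good (Ft k) E p)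
    (hm : ∀ l, Adm (m l)) (ha : Nonempty (Act E p z m))
    (hε : ∀ ε : ι → Bool, Good M E (fun W _ _ x => p W x ∧ ∀ l, (z l).val W x = bt W (ε l))) :
    Good M E (fun W _ _ x => p W x ∧
      MvPolynomial.aeval (fun l => (z l).val W x) g = bt W b) := by
  cases b
  · refine (h.zero E p z m hE hm ha hε).congr (fun W _ _ x => ?_)
    simp [VS]
  · refine (h.one E p z m hE hm ha hε).congr (fun W _ _ x => ?_)
    simp [VS, sub_eq_zero]

/-- one block of a torus -/
def TorHom.block {J : Type} [DecidableEq J] (ι : J → Type) (j : J) : TorHom (ι j) (Σ j, ι j) where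
  φ W _ u := fun l => if h : l.1 = j then u (h ▸ l.2) else 1
  nat W V _ _ f u := by
    funext l
    by_cases h : l.1 = j
    · simp [h]
    · simp [h]
  inv W _ u := by
    funext l
    by_cases h : l.1 = j
    · simp [h]
    · simp [h]

/-- one parameter subgroups for all blocks -/
def TorHom.blocks {J : Type} {ι : J → Type} (w : ∀ j, ι j → ℤ) : TorHom J (Σ j, ι j) where
  φ W _ u := fun l => u l.1 ^ w l.1 l.2
  nat W V _ _ f u := by
    funext l
    rw [map_zpow]
  inv W _ u := by
    funext l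
    simp

/-- substitution of homogeneous polynomials in disjoint variables -/
theorem ug_comp (hM : KClass k Adm M) {J : Type} [Finite J] {ι : J → Type} [∀ j, Finite (ι j)]
    {g : ∀ j, MvPolynomial (ι j) k} {d : J → ℕ} (hg : ∀ j, Node Adm M (g j) (d j))
    {S : Set (MvPolynomial J k)} (hS : UG Adm M S) :
    UG Adm M ((MvPolynomial.aeval (fun j => MvPolynomial.rename (Sigma.mk j) (g j)) :
      MvPolynomial J k →ₐ[k] MvPolynomial (Σ j, ι j) k) '' S) := by
  classical
  have := Fintype.ofFinite J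
  have := fun j => Fintype.ofFinite (ι j)
  intro E p z m hE hm ⟨a0⟩ hε
  obtain ⟨a⟩ := a0.uniform
  set N := ∏ l, m l with hN
  have hNA : Adm N := hM.adm_prod _ m hm
  choose w hw using fun j => (hg j).fe
  set y : J → Crd E := fun j => Crd.poly (fun i => z ⟨j, i⟩) (g j) with hy
  have hyv : ∀ (W : Type) [CommRing W] [Algebra k W] (x : E.obj W) (j : J),
      (y j).val W x = MvPolynomial.aeval (fun i => (z ⟨j, i⟩).val W x) (g j) :=
    fun _ _ _ _ _ => rfl
  -- the block torus acts
  have hblock : ∀ (j : J) (W : Type) [CommRing W] [Algebra k W] (u : ι j → Wˣ) (x : E.obj W),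
      p W x → ∀ j' i', (z ⟨j', i'⟩).val W (a.act W ((TorHom.block ι j).φ W u) x) =
        (((if h : j' = j then u (h ▸ i') else 1) ^ N : Wˣ) : W) * (z ⟨j', i'⟩).val W x :=
    fun j W _ _ u x hx j' i' => a.eq W _ x hx ⟨j', i'⟩
  -- special fibres of `y`
  have key : ∀ (s : Finset J) (ε : J → Bool) (ε' : (Σ j, ι j) → Bool),
      Good M E (fun W _ _ x => p W x ∧ (∀ j ∈ s, (y j).val W x = bt W (ε j)) ∧
        ∀ l : (Σ j, ι j), l.1 ∉ s → (z l).val W x = bt W (ε' l)) := by
    intro s
    induction s using Finset.induction_on with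
    | empty =>
      intro ε ε'
      exact (hε ε').congr (fun W _ _ x => by simp)
    | insert j s hj ih =>
      intro ε ε'
      set p1 : Pr E := fun W _ _ x => p W x ∧ (∀ j ∈ s, (y j).val W x = bt W (ε j)) ∧
        ∀ l : (Σ j, ι j), l.1 ∉ insert j s → (z l).val W x = bt W (ε' l) with hp1
      have hE1 : Good (Ft k) E p1 := by
        have h1 := (hE.ft_eqs (fun j : s => y j.1) (fun j => Crd.bt E (ε j.1))).ft_eqs
          (fun l : {l : (Σ j, ι j) // l.1 ∉ insert j s} => z l.1) (fun l => Crd.bt E (ε' l.1))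
        refine h1.congr (fun W _ _ x => ?_)
        constructor
        · rintro ⟨⟨h1, h2⟩, h3⟩
          exact ⟨h1, fun j hj => h2 ⟨j, hj⟩, fun l hl => h3 ⟨l, hl⟩⟩
        · rintro ⟨h1, h2, h3⟩
          exact ⟨⟨h1, fun j => h2 j.1 j.2⟩, fun l => h3 l.1 l.2⟩
      have hact : Nonempty (Act E p1 (fun i => z ⟨j, i⟩) (fun _ : ι j => N)) := by
        refine ⟨a.gen (TorHom.block ι j) p1 _ _ (fun W _ _ x h => h.1) ?_ ?_⟩
        · rintro W _ _ u x ⟨h1, h2, h3⟩
          refine ⟨a.pres W _ x h1, ?_, ?_⟩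
          · intro j' hj'
            have hne : j' ≠ j := by
              rintro rfl
              exact hj hj'
            rw [← h2 j' hj', hyv, hyv]
            congr 2
            funext i'
            rw [hblock j W u x h1, dif_neg hne, one_pow, Units.val_one, one_mul]
          · rintro ⟨j', i'⟩ hl
            have hne : j' ≠ j := by
              rintro rfl
              exact hl (Finset.mem_insert_self _ _)
            rw [hblock j W u x h1, dif_neg hne, one_pow, Units.val_one, one_mul]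
            exact h3 _ hl
        · rintro W _ _ u x ⟨h1, h2, h3⟩ i
          rw [hblock j W u x h1, dif_pos rfl]
      have h1 := (hg j).ug (ε j) hE1 (fun _ => hNA) hact (fun δ => by
        refine (ih ε (fun l => if h : l.1 = j then δ (h ▸ l.2) else ε' l)).congr
          (fun W _ _ x => ?_)
        constructor
        · rintro ⟨h1, h2, h3⟩
          refine ⟨⟨h1, h2, ?_⟩, ?_⟩
          · intro l hl
            have h4 := h3 l (fun h => hl (Finset.mem_insert_of_mem h))
            have hne : l.1 ≠ j := by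
              rintro rfl
              exact hl (Finset.mem_insert_self _ _)
            rwa [dif_neg hne] at h4
          · intro i
            have h4 := h3 ⟨j, i⟩ hj
            rwa [dif_pos rfl] at h4
        · rintro ⟨⟨h1, h2, h3⟩, h4⟩
          refine ⟨h1, h2, ?_⟩
          rintro ⟨j', i'⟩ hl
          by_cases h : j' = j
          · subst h
            rw [dif_pos rfl]
            exact h4 i'
          · rw [dif_neg h]
            exact h3 ⟨j', i'⟩ (fun h5 => (Finset.mem_insert.1 h5).elim h hl))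
      refine h1.congr (fun W _ _ x => ?_)
      constructor
      · rintro ⟨⟨h1, h2, h3⟩, h4⟩
        refine ⟨h1, ?_, h3⟩
        intro j' hj'
        rcases Finset.mem_insert.1 hj' with rfl | h
        · exact h4
        · exact h2 j' h
      · rintro ⟨h1, h2, h3⟩
        exact ⟨⟨h1, fun j' hj' => h2 j' (Finset.mem_insert_of_mem hj'), h3⟩,
          h2 j (Finset.mem_insert_self _ _)⟩
  -- the torus of the `y j`
  have hacty : Nonempty (Act E p y (fun j => N * d j)) := by
    refine ⟨a.gen (TorHom.blocks w) p y _ (fun W _ _ x h => h)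
      (fun W _ _ u x h => a.pres W _ x h) ?_⟩
    intro W _ _ u x hx j
    have h1 := hw j W (u j ^ N) (fun i => (z ⟨j, i⟩).val W x)
    rw [hyv, hyv, pow_mul, ← h1]
    congr 2
    funext i
    rw [a.eq W _ x hx]
    change (((u j ^ w j i) ^ N : Wˣ) : W) * _ = _
    rw [← zpow_natCast, ← zpow_mul, ← zpow_natCast, ← zpow_mul, mul_comm (w j i)]
  have h2 := hS E p y _ hE (fun j => hM.adm_mul _ _ hNA (hg j).adm) hacty (fun ε => by
    refine (key Finset.univ ε (fun _ => true)).congr (fun W _ _ x => ?_)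
    simp)
  refine h2.congr (fun W _ _ x => ?_)
  have h3 : ∀ f : MvPolynomial J k, MvPolynomial.aeval (fun l => (z l).val W x)
      (MvPolynomial.aeval (fun j => MvPolynomial.rename (Sigma.mk j) (g j)) f :
        MvPolynomial (Σ j, ι j) k) = MvPolynomial.aeval (fun j => (y j).val W x) f := by
    intro f
    rw [← AlgHom.comp_apply, MvPolynomial.comp_aeval]
    congr 1
    congr 1
    funext j
    rw [MvPolynomial.aeval_rename]
    rfl
  constructor
  · rintro ⟨h4, h5⟩
    refine ⟨h4, ?_⟩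
    rintro _ ⟨f, hf, rfl⟩
    rw [h3]
    exact h5 f hf
  · rintro ⟨h4, h5⟩
    refine ⟨h4, ?_⟩
    intro f hf
    have := h5 _ ⟨f, hf, rfl⟩
    rwa [h3] at this

end Pool.Agent.Helper62.RO
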