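import Pool.Agent.Helper62.RO.Class

/-!
# Torus actions and good bases
-/

namespace Pool.Agent.Helper62.RO

open TensorProduct
open Pool.Agent.Helper62.TS

variable {k : Type} [Field k]

/-- functoriality of units -/
abbrev um {W V : Type} [CommRing W] [Algebra k W] [CommRing V] [Algebra k V] (f : W →ₐ[k] V) :
    Wˣ →* Vˣ := Units.map (f : W →* V)

/-- The torus with factors indexed by `Λ` acts on the points of `E` with the property `p`, and
the function `z l` has weight `m l` for the factor `l` and weight `0` for the others. -/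
structure Act (E : Fun k) (p : Pr E) {Λ : Type} (z : Λ → Crd E) (m : Λ → ℕ) where
  /-- the action -/
  act : ∀ (W : Type) [CommRing W] [Algebra k W], (Λ → Wˣ) → E.obj W → E.obj W
  nat : ∀ (W V : Type) [CommRing W] [Algebra k W] [CommRing V] [Algebra k V] (f : W →ₐ[k] V)
    (u : Λ → Wˣ) (x : E.obj W), p W x → E.map f (act W u x) = act V (fun l => um f (u l))
      (E.map f x)
  pres : ∀ (W : Type) [CommRing W] [Algebra k W] (u : Λ → Wˣ) (x : E.obj W), p W x →
    p W (act W u x)
  inv : ∀ (W : Type) [CommRing W] [Algebra k W] (u : Λ → Wˣ) (x : E.obj W), p W x →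
    act W u⁻¹ (act W u x) = x
  eq : ∀ (W : Type) [CommRing W] [Algebra k W] (u : Λ → Wˣ) (x : E.obj W), p W x →
    ∀ l, (z l).val W (act W u x) = ((u l ^ m l : Wˣ) : W) * (z l).val W x

/-- zero and one -/
def bt (W : Type) [CommRing W] (b : Bool) : W := if b then 1 else 0

theorem map_bt {W V : Type} [CommRing W] [Algebra k W] [CommRing V] [Algebra k V]
    (f : W →ₐ[k] V) (b : Bool) : f (bt W b) = bt V b := by
  cases b
  · simp [bt]
  · simp [bt]

@[simp] theorem bt_true (W : Type) [CommRing W] : bt W true = 1 := rfl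

@[simp] theorem bt_false (W : Type) [CommRing W] : bt W false = 0 := rfl

/-- constant functions -/
def Crd.bt (E : Fun k) (b : Bool) : Crd E where
  val W _ _ _ := RO.bt W b
  nat f _ := map_bt f b

/-- The base `B` with the functions `ψ` is good: for every family over affine space with a torus
action and good special fibres the pullback to `B` is good. -/
def Bs (Adm : ℕ → Prop) (M : Cls k) (B : Fun k) (q : Pr B) {Λ : Type} (ψ : Λ → Crd B) : Prop :=
  ∀ (E : Fun k) (p : Pr E) (z : Λ → Crd E) (m : Λ → ℕ), Good (Ft k) E p →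
    (∀ l, Adm (m l)) → Nonempty (Act E p z m) →
    (∀ ε : Λ → Bool, Good M E (fun W _ _ x => p W x ∧ ∀ l, (z l).val W x = bt W (ε l))) →
    Good M (E.prod B) (fun W _ _ x => (p W x.1 ∧ q W x.2) ∧ ∀ l, (z l).val W x.1 = (ψ l).val W x.2)

/-- unit valued functions -/
structure UF (B : Fun k) (q : Pr B) where
  /-- values -/
  val : ∀ (W : Type) [CommRing W] [Algebra k W], B.obj W → Wˣ
  nat : ∀ (W V : Type) [CommRing W] [Algebra k W] [CommRing V] [Algebra k V] (f : W →ₐ[k] V)
    (x : B.obj W), q W x → um f (val W x) = val V (B.map f x)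

/-- a function which takes unit values -/
noncomputable def UF.mk' {B : Fun k} {q : Pr B} {A : Type} [CommRing A] [Algebra k A] {a : B.obj A}
    (h : Rep B q A a) (u : Crd B)
    (hu : ∀ (W : Type) [CommRing W] [Algebra k W] (x : B.obj W), q W x → IsUnit (u.val W x)) :
    UF B q where
  val W _ _ x := open Classical in if h : IsUnit (u.val W x) then h.unit else 1
  nat W V _ _ _ _ f x hx := by
    have h1 := hu W x hx
    have h2 := hu V _ (h.stable f hx)
    rw [dif_pos h1, dif_pos h2]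
    ext
    change f (u.val W x) = u.val V _
    exact u.nat f x

theorem UF.exists_of {B : Fun k} {q : Pr B} {M : Cls k} (h : Good M B q) (u : Crd B)
    (hu : ∀ (W : Type) [CommRing W] [Algebra k W] (x : B.obj W), q W x → IsUnit (u.val W x)) :
    ∃ v : UF B q, ∀ (W : Type) [CommRing W] [Algebra k W] (x : B.obj W), q W x →
      (v.val W x : W) = u.val W x := by
  obtain ⟨A, _, _, a, ha, hA⟩ := h
  refine ⟨UF.mk' ha u hu, ?_⟩
  intro W _ _ x hx
  have h1 := hu W x hx
  change ((open Classical in if h : IsUnit (u.val W x) then h.unit else 1 : Wˣ) : W) = _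
  rw [dif_pos h1]
  rfl

/-- restriction -/
def UF.res {B : Fun k} {q q' : Pr B} (v : UF B q)
    (h : ∀ (W : Type) [CommRing W] [Algebra k W] (x : B.obj W), q' W x → q W x) : UF B q' where
  val := v.val
  nat W V _ _ _ _ f x hx := v.nat W V f x (h W x hx)

/-- pullback -/
def UF.fst {B : Fun k} {q : Pr B} (v : UF B q) (C : Fun k) {q' : Pr (B.prod C)}
    (h : ∀ (W : Type) [CommRing W] [Algebra k W] (x : (B.prod C).obj W), q' W x → q W x.1) :
    UF (B.prod C) q' where
  val W _ _ x := v.val W x.1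
  nat W V _ _ _ _ f x hx := v.nat W V f x.1 (h W x hx)

/-- the twist -/
theorem good_twist {M : Cls k} {E B : Fun k} {p : Pr E} {q : Pr B} {Λ : Type} {z : Λ → Crd E}
    {m : Λ → ℕ} (a : Act E p z m)
    (φ ψ : Λ → Crd B) (v : Λ → UF B q)
    (h : ∀ (W : Type) [CommRing W] [Algebra k W] (b : B.obj W), q W b → ∀ l,
      (ψ l).val W b = (((v l).val W b ^ m l : Wˣ) : W) * (φ l).val W b)
    (hg : Good M (E.prod B) (fun W _ _ x => (p W x.1 ∧ q W x.2) ∧
      ∀ l, (z l).val W x.1 = (φ l).val W x.2)) :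
    Good M (E.prod B) (fun W _ _ x => (p W x.1 ∧ q W x.2) ∧
      ∀ l, (z l).val W x.1 = (ψ l).val W x.2) := by
  refine hg.iso (E' := E.prod B)
    (fun W _ _ (x : (E.prod B).obj W) => (a.act W (fun l => (v l).val W x.2) x.1, x.2))
    (fun W _ _ (x : (E.prod B).obj W) => (a.act W (fun l => ((v l).val W x.2)⁻¹) x.1, x.2))
    ?_ ?_ ?_ ?_ ?_
  · rintro W _ _ x ⟨⟨h1, h2⟩, h3⟩
    refine ⟨⟨a.pres W _ _ h1, h2⟩, fun l => ?_⟩
    change (z l).val W (a.act W _ x.1) = (ψ l).val W x.2
    rw [a.eq W _ _ h1, h W _ h2, h3]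
  · rintro W _ _ x ⟨⟨h1, h2⟩, h3⟩
    refine ⟨⟨a.pres W _ _ h1, h2⟩, fun l => ?_⟩
    change (z l).val W (a.act W _ x.1) = (φ l).val W x.2
    rw [a.eq W _ _ h1, h3, h W _ h2, ← mul_assoc, ← Units.val_mul, inv_pow, inv_mul_cancel,
      Units.val_one, one_mul]
  · rintro W _ _ x ⟨⟨h1, h2⟩, h3⟩
    exact Prod.ext (a.inv W (fun l => (v l).val W x.2) x.1 h1) rfl
  · rintro W _ _ x ⟨⟨h1, h2⟩, h3⟩
    refine Prod.ext ?_ rfl
    have := a.inv W (fun l => ((v l).val W x.2)⁻¹) x.1 h1
    have h4 : (fun l => ((v l).val W x.2)⁻¹)⁻¹ = fun l => (v l).val W x.2 := by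
      funext l
      simp
    rw [h4] at this
    exact this
  · rintro W V _ _ _ _ f x ⟨⟨h1, h2⟩, h3⟩
    refine Prod.ext ?_ rfl
    change E.map f (a.act W _ x.1) = a.act V _ (E.map f x.1)
    rw [a.nat W V f _ _ h1]
    congr 1
    funext l
    exact (v l).nat W V f x.2 h2

variable {Adm : ℕ → Prop} {M : Cls k}

theorem bs_curve (hM : KClass k Adm M) {Λ : Type} [Finite Λ] {B : Fun k} {q : Pr B}
    (hB : Good (Cv k) B q) (ψ : Λ → Crd B) : Bs Adm M B q ψ := by
  classical
  intro E p z m hE hm ⟨a⟩ hε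
  have := Fintype.ofFinite Λ
  suffices H : ∀ (s : Finset Λ) (B : Fun k) (q : Pr B) (ψ : Λ → Crd B), Good (Cv k) B q →
      (∀ l ∉ s, (∀ (W : Type) [CommRing W] [Algebra k W] (b : B.obj W), q W b →
          (ψ l).val W b = 0) ∨
        ∃ v : UF B q, ∀ (W : Type) [CommRing W] [Algebra k W] (b : B.obj W), q W b →
          (ψ l).val W b = ((v.val W b ^ m l : Wˣ) : W)) →
      Good M (E.prod B) (fun W _ _ x => (p W x.1 ∧ q W x.2) ∧
        ∀ l, (z l).val W x.1 = (ψ l).val W x.2) by
    exact H Finset.univ B q ψ hB (fun j hj => absurd (Finset.mem_univ j) hj)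
  intro s
  induction s using Finset.induction_on with
  | empty =>
    intro B q ψ hB hψ
    have h1 : ∀ l, ∃ (v : UF B q) (ε : Bool), ∀ (W : Type) [CommRing W] [Algebra k W]
        (b : B.obj W), q W b → (ψ l).val W b = ((v.val W b ^ m l : Wˣ) : W) * bt W ε := by
      intro l
      rcases hψ l (by simp) with h | ⟨v, hv⟩
      · refine ⟨⟨fun _ _ _ _ => 1, fun _ _ _ _ _ _ f x _ => map_one _⟩, false, ?_⟩
        intro W _ _ b hb
        rw [h W b hb]
        simp
      · refine ⟨v, true, ?_⟩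
        intro W _ _ b hb
        rw [hv W b hb]
        simp
    choose v ε hv using h1
    apply good_twist a (fun l => Crd.bt B (ε l)) ψ v
    · intro W _ _ b hb l
      exact hv l W b hb
    · exact ((hε ε).prod hM (hB.of_curve hM)).congr (fun W _ _ x => by
        constructor
        · rintro ⟨⟨h1, h2⟩, h3⟩
          exact ⟨⟨h1, h3⟩, h2⟩
        · rintro ⟨⟨h1, h3⟩, h2⟩
          exact ⟨⟨h1, h2⟩, h3⟩)
  | insert l s hl ih =>
    intro B q ψ hB hψ
    have hft : Good (Ft k) (E.prod B) (fun W _ _ x => (p W x.1 ∧ q W x.2) ∧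
        ∀ l, (z l).val W x.1 = (ψ l).val W x.2) :=
      (hE.ft_prod hB.cv_ft).ft_eqs (fun l => (z l).fst B) (fun l => (ψ l).snd E)
    apply hft.glue hM ((ψ l).snd E)
    · -- the closed part
      have h1 := ih B (fun W _ _ b => q W b ∧ (ψ l).val W b = 0) ψ (hB.cv_cls1 (ψ l)) (by
        intro j hj
        by_cases hjl : j = l
        · left
          subst hjl
          intro W _ _ b hb
          exact hb.2
        · rcases hψ j (by simp [hjl, hj]) with h | ⟨v, hv⟩
          · left
            intro W _ _ b hb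
            exact h W b hb.1
          · right
            exact ⟨v.res (fun _ _ _ _ h => h.1), fun W _ _ b hb => hv W b hb.1⟩)
      exact h1.congr (fun W _ _ x => by
        constructor
        · rintro ⟨⟨h1, h2, h4⟩, h3⟩
          exact ⟨⟨⟨h1, h2⟩, h3⟩, h4⟩
        · rintro ⟨⟨⟨h1, h2⟩, h3⟩, h4⟩
          exact ⟨⟨h1, h2, h4⟩, h3⟩)
    · -- the open part
      set B1 := B.prod line with hB1
      set u : Crd B := ψ l with hu
      set d := m l with hd
      have hd0 : d ≠ 0 := hM.adm_ne d (hm l)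
      set q0 : Pr B := fun W _ _ b => q W b ∧ IsUnit (u.val W b) with hq0
      have hB0 : Good (Cv k) B q0 := hB.cv_opn u
      set q1 : Pr B1 := fun W _ _ b => q0 W b.1 ∧ b.2 ^ d = u.val W b.1 with hq1
      have hB1' : Good (Cv k) B1 q1 := hB0.cv_kum u d hd0
      have hun : ∀ (W : Type) [CommRing W] [Algebra k W] (b : B1.obj W), q1 W b →
          IsUnit ((crdLine.snd B : Crd B1).val W b) := by
        rintro W _ _ b ⟨⟨h1, h2⟩, h3⟩
        have h4 : IsUnit (b.2 ^ d) := by rw [h3]; exact h2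
        exact (isUnit_pow_iff hd0).1 h4
      obtain ⟨r, hr⟩ := UF.exists_of hB1' (crdLine.snd B) hun
      have h1 := ih B1 q1 (fun j => (ψ j).fst line) hB1' (by
        intro j hj
        by_cases hjl : j = l
        · right
          subst hjl
          refine ⟨r, ?_⟩
          intro W _ _ b hb
          rw [Units.val_pow_eq_pow_val, hr W b hb]
          exact hb.2.symm
        · rcases hψ j (by simp [hjl, hj]) with h | ⟨v, hv⟩
          · left
            intro W _ _ b hb
            exact h W b.1 hb.1.1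
          · right
            exact ⟨v.fst line (fun _ _ _ _ h => h.1.1), fun W _ _ b hb => hv W b.1 hb.1.1⟩)
      have hft2 : Good (Ft k) (E.prod B) (fun W _ _ x => ((p W x.1 ∧ q W x.2) ∧
          ∀ l, (z l).val W x.1 = (ψ l).val W x.2) ∧ IsUnit ((u.snd E).val W x)) :=
        hft.ft_opn (u.snd E)
      apply hft2.kummer hM (u.snd E) d (hm l) (fun W _ _ x hx => hx.2)
      refine h1.iso (E' := (E.prod B).prod line)
        (fun W _ _ (x : (E.prod B1).obj W) => ((x.1, x.2.1), x.2.2))
        (fun W _ _ (x : ((E.prod B).prod line).obj W) => (x.1.1, (x.1.2, x.2)))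
        ?_ ?_ (fun _ _ _ _ _ => rfl) (fun _ _ _ _ _ => rfl) (fun _ _ _ _ _ _ _ _ _ => rfl)
      · rintro W _ _ x ⟨⟨h1, ⟨h2, h3⟩, h4⟩, h5⟩
        exact ⟨⟨⟨⟨h1, h2⟩, h5⟩, h3⟩, h4⟩
      · rintro W _ _ x ⟨⟨⟨⟨h1, h2⟩, h5⟩, h3⟩, h4⟩
        exact ⟨⟨h1, ⟨h2, h3⟩, h4⟩, h5⟩

end Pool.Agent.Helper62.RO
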