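import Pool.Agent.Helper62.TS.Core
import Pool.Agent.Helper62.TS.Dim

/-!
# Functors of points over a field
-/

namespace Pool.Agent.Helper62.RO

open TensorProduct
open Pool.Agent.Helper62.TS

/-- functors from commutative `k`-algebras to types -/
structure Fun (k : Type) [Field k] : Type 1 where
  /-- points -/
  obj : ∀ (W : Type) [CommRing W] [Algebra k W], Type
  /-- functoriality -/
  map : ∀ {W V : Type} [CommRing W] [Algebra k W] [CommRing V] [Algebra k V],
    (W →ₐ[k] V) → obj W → obj V
  id_map : ∀ {W : Type} [CommRing W] [Algebra k W] (x : obj W), map (AlgHom.id k W) x = x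
  comp_map : ∀ {W V U : Type} [CommRing W] [Algebra k W] [CommRing V] [Algebra k V] [CommRing U]
    [Algebra k U] (f : W →ₐ[k] V) (g : V →ₐ[k] U) (x : obj W), map (g.comp f) x = map g (map f x)

variable {k : Type} [Field k]

/-- predicates on points -/
abbrev Pr (E : Fun k) : Type 1 := ∀ (W : Type) [CommRing W] [Algebra k W], E.obj W → Prop

/-- functions on `E` -/
structure Crd (E : Fun k) where
  /-- values -/
  val : ∀ (W : Type) [CommRing W] [Algebra k W], E.obj W → W
  nat : ∀ {W V : Type} [CommRing W] [Algebra k W] [CommRing V] [Algebra k V] (f : W →ₐ[k] V)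
    (x : E.obj W), f (val W x) = val V (E.map f x)

/-- `(A, a)` represents the points of `E` with the property `p` -/
structure Rep (E : Fun k) (p : Pr E) (A : Type) [CommRing A] [Algebra k A] (a : E.obj A) :
    Prop where
  mem : ∀ (W : Type) [CommRing W] [Algebra k W] (f : A →ₐ[k] W), p W (E.map f a)
  ex : ∀ (W : Type) [CommRing W] [Algebra k W] (x : E.obj W), p W x →
    ∃ f : A →ₐ[k] W, E.map f a = x
  uniq : ∀ (W : Type) [CommRing W] [Algebra k W] (f g : A →ₐ[k] W),
    E.map f a = E.map g a → f = g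

theorem Rep.mem_self {E : Fun k} {p : Pr E} {A : Type} [CommRing A] [Algebra k A] {a : E.obj A}
    (h : Rep E p A a) : p A a := by
  have := h.mem A (AlgHom.id k A)
  rwa [E.id_map] at this

theorem Rep.stable {E : Fun k} {p : Pr E} {A : Type} [CommRing A] [Algebra k A] {a : E.obj A}
    (h : Rep E p A a) {W V : Type} [CommRing W] [Algebra k W] [CommRing V] [Algebra k V]
    (f : W →ₐ[k] V) {x : E.obj W} (hx : p W x) : p V (E.map f x) := by
  obtain ⟨g, rfl⟩ := h.ex W x hx
  rw [← E.comp_map]
  exact h.mem V _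

theorem Rep.equiv {E : Fun k} {p : Pr E} {A B : Type} [CommRing A] [Algebra k A] [CommRing B]
    [Algebra k B] {a : E.obj A} {b : E.obj B} (ha : Rep E p A a) (hb : Rep E p B b) :
    Nonempty (A ≃ₐ[k] B) := by
  obtain ⟨f, hf⟩ := ha.ex B b hb.mem_self
  obtain ⟨g, hg⟩ := hb.ex A a ha.mem_self
  refine ⟨AlgEquiv.ofAlgHom f g ?_ ?_⟩
  · apply hb.uniq
    rw [E.comp_map, hg, hf, E.id_map]
  · apply ha.uniq
    rw [E.comp_map, hf, hg, E.id_map]

/-- classes of algebras -/
abbrev Cls (k : Type) [Field k] : Type 1 := ∀ (A : Type) [CommRing A] [Algebra k A], Prop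

/-- the points of `E` with the property `p` are represented by a member of `M` -/
def Good (M : Cls k) (E : Fun k) (p : Pr E) : Prop :=
  ∃ (A : Type) (_ : CommRing A) (_ : Algebra k A) (a : E.obj A), Rep E p A a ∧ M A

/-- finitely generated algebras -/
def Ft (k : Type) [Field k] : Cls k := fun A _ _ => Algebra.FiniteType k A

/-- finitely generated algebras of dimension at most one -/
def Cv (k : Type) [Field k] : Cls k := fun A _ _ => Algebra.FiniteType k A ∧ ringKrullDim A ≤ 1

theorem Good.mono {M M' : Cls k} (h : ∀ (A : Type) [CommRing A] [Algebra k A], M A → M' A)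
    {E : Fun k} {p : Pr E} (hp : Good M E p) : Good M' E p := by
  obtain ⟨A, _, _, a, ha, hA⟩ := hp
  exact ⟨A, inferInstance, inferInstance, a, ha, h A hA⟩

theorem Good.stable {M : Cls k} {E : Fun k} {p : Pr E} (hp : Good M E p) {W V : Type}
    [CommRing W] [Algebra k W] [CommRing V] [Algebra k V] (f : W →ₐ[k] V) {x : E.obj W}
    (hx : p W x) : p V (E.map f x) := by
  obtain ⟨A, _, _, a, ha, hA⟩ := hp
  exact ha.stable f hx

theorem Good.iso {M : Cls k} {E E' : Fun k} {p : Pr E} {p' : Pr E'}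
    (hom : ∀ (W : Type) [CommRing W] [Algebra k W], E.obj W → E'.obj W)
    (inv : ∀ (W : Type) [CommRing W] [Algebra k W], E'.obj W → E.obj W)
    (h1 : ∀ (W : Type) [CommRing W] [Algebra k W] (x : E.obj W), p W x → p' W (hom W x))
    (h2 : ∀ (W : Type) [CommRing W] [Algebra k W] (y : E'.obj W), p' W y → p W (inv W y))
    (h3 : ∀ (W : Type) [CommRing W] [Algebra k W] (x : E.obj W), p W x → inv W (hom W x) = x)
    (h4 : ∀ (W : Type) [CommRing W] [Algebra k W] (y : E'.obj W), p' W y → hom W (inv W y) = y)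
    (h5 : ∀ (W V : Type) [CommRing W] [Algebra k W] [CommRing V] [Algebra k V] (f : W →ₐ[k] V)
      (x : E.obj W), p W x → E'.map f (hom W x) = hom V (E.map f x))
    (hp : Good M E p) : Good M E' p' := by
  obtain ⟨A, _, _, a, ha, hA⟩ := hp
  have h6 : ∀ (W : Type) [CommRing W] [Algebra k W] (f : A →ₐ[k] W),
      E'.map f (hom A a) = hom W (E.map f a) := fun W _ _ f => h5 A W f a ha.mem_self
  refine ⟨A, inferInstance, inferInstance, hom A a, ⟨?_, ?_, ?_⟩, hA⟩
  · intro W _ _ f
    rw [h6]
    exact h1 W _ (ha.mem W f)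
  · intro W _ _ y hy
    obtain ⟨f, hf⟩ := ha.ex W (inv W y) (h2 W y hy)
    exact ⟨f, by rw [h6, hf, h4 W y hy]⟩
  · intro W _ _ f g hfg
    rw [h6, h6] at hfg
    apply ha.uniq
    rw [← h3 W _ (ha.mem W f), hfg, h3 W _ (ha.mem W g)]

theorem Good.congr {M : Cls k} {E : Fun k} {p p' : Pr E}
    (h : ∀ (W : Type) [CommRing W] [Algebra k W] (x : E.obj W), p W x ↔ p' W x)
    (hp : Good M E p) : Good M E p' :=
  hp.iso (fun W _ _ x => x) (fun W _ _ x => x) (fun W _ _ x hx => (h W x).1 hx)
    (fun W _ _ x hx => (h W x).2 hx) (fun _ _ _ _ _ => rfl) (fun _ _ _ _ _ => rfl)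
    (fun _ _ _ _ _ _ _ _ _ => rfl)

/-! ### Equations -/

theorem Rep.cls {E : Fun k} {p : Pr E} {A : Type} [CommRing A] [Algebra k A] {a : E.obj A}
    (h : Rep E p A a) {J : Type} (u : J → Crd E) :
    Rep E (fun W _ _ x => p W x ∧ ∀ j, (u j).val W x = 0)
      (A ⧸ Ideal.span (Set.range fun j => (u j).val A a))
      (E.map (Ideal.Quotient.mkₐ k _) a) := by
  set I := Ideal.span (Set.range fun j => (u j).val A a) with hI
  refine ⟨?_, ?_, ?_⟩
  · intro W _ _ f
    rw [← E.comp_map]
    refine ⟨h.mem W _, fun j => ?_⟩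
    rw [← (u j).nat, AlgHom.comp_apply]
    have : Ideal.Quotient.mkₐ k I ((u j).val A a) = 0 :=
      Ideal.Quotient.eq_zero_iff_mem.2 (Ideal.subset_span ⟨j, rfl⟩)
    rw [this, map_zero]
  · rintro W _ _ x ⟨hx, hx2⟩
    obtain ⟨f, hf⟩ := h.ex W x hx
    have h1 : ∀ a ∈ I, f a = 0 := by
      have : I ≤ RingHom.ker f := by
        rw [hI, Ideal.span_le]
        rintro _ ⟨j, rfl⟩
        change f ((u j).val A a) = 0
        rw [(u j).nat, hf, hx2]
      exact fun a ha => this ha
    refine ⟨Ideal.Quotient.liftₐ I f h1, ?_⟩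
    rw [← E.comp_map, Ideal.Quotient.liftₐ_comp, hf]
  · intro W _ _ f g hfg
    rw [← E.comp_map, ← E.comp_map] at hfg
    exact Ideal.Quotient.algHom_ext k (h.uniq W _ _ hfg)

theorem Rep.cls1 {E : Fun k} {p : Pr E} {A : Type} [CommRing A] [Algebra k A] {a : E.obj A}
    (h : Rep E p A a) (u : Crd E) :
    Rep E (fun W _ _ x => p W x ∧ u.val W x = 0)
      (A ⧸ Ideal.span {u.val A a}) (E.map (Ideal.Quotient.mkₐ k _) a) := by
  have h1 := h.cls (fun _ : Unit => u)
  have h2 : (Set.range fun _ : Unit => u.val A a) = {u.val A a} := Set.range_const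
  rw [h2] at h1
  exact ⟨fun W _ _ f => ⟨(h1.mem W f).1, (h1.mem W f).2 ()⟩,
    fun W _ _ x hx => h1.ex W x ⟨hx.1, fun _ => hx.2⟩, h1.uniq⟩

theorem Rep.opn {E : Fun k} {p : Pr E} {A : Type} [CommRing A] [Algebra k A] {a : E.obj A}
    (h : Rep E p A a) (u : Crd E) :
    Rep E (fun W _ _ x => p W x ∧ IsUnit (u.val W x))
      (Localization.Away (u.val A a)) (E.map (Algebra.ofId A _ |>.restrictScalars k) a) := by
  set L := Localization.Away (u.val A a) with hL
  have h0 : ∀ b : A, (Algebra.ofId A L |>.restrictScalars k) b = algebraMap A L b := fun _ => rfl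
  refine ⟨?_, ?_, ?_⟩
  · intro W _ _ f
    rw [← E.comp_map]
    refine ⟨h.mem W _, ?_⟩
    rw [← u.nat, AlgHom.comp_apply, h0]
    exact (IsLocalization.Away.algebraMap_isUnit (u.val A a)).map f
  · rintro W _ _ x ⟨hx, hx2⟩
    obtain ⟨f, hf⟩ := h.ex W x hx
    have h1 : ∀ y : Submonoid.powers (u.val A a), IsUnit (f y) := by
      rintro ⟨_, n, rfl⟩
      change IsUnit (f ((u.val A a) ^ n))
      rw [map_pow, u.nat, hf]
      exact hx2.pow n
    let F : L →ₐ[k] W := IsLocalization.liftAlgHom (M := Submonoid.powers (u.val A a)) (f := f) h1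
    refine ⟨F, ?_⟩
    rw [← E.comp_map, ← hf]
    congr 1
    ext b
    exact IsLocalization.lift_eq _ b
  · intro W _ _ f g hfg
    rw [← E.comp_map, ← E.comp_map] at hfg
    have h1 := h.uniq W _ _ hfg
    have h2 : (f : L →+* W) = (g : L →+* W) := by
      apply IsLocalization.ringHom_ext (Submonoid.powers (u.val A a))
      ext b
      exact DFunLike.congr_fun h1 b
    exact AlgHom.ext fun b => RingHom.congr_fun h2 b

/-- the affine line -/
@[reducible] def line : Fun k where
  obj W _ _ := W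
  map f x := f x
  id_map _ := rfl
  comp_map _ _ _ := rfl

/-- products -/
@[reducible] def Fun.prod (E B : Fun k) : Fun k where
  obj W _ _ := E.obj W × B.obj W
  map f x := (E.map f x.1, B.map f x.2)
  id_map x := Prod.ext (E.id_map x.1) (B.id_map x.2)
  comp_map f g x := Prod.ext (E.comp_map f g x.1) (B.comp_map f g x.2)

/-- functions on the first factor -/
def Crd.fst {E : Fun k} (u : Crd E) (B : Fun k) : Crd (E.prod B) where
  val W _ _ x := u.val W x.1
  nat f x := u.nat f x.1

/-- functions on the second factor -/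
def Crd.snd (E : Fun k) {B : Fun k} (u : Crd B) : Crd (E.prod B) where
  val W _ _ x := u.val W x.2
  nat f x := u.nat f x.2

/-- constants -/
def Crd.const (E : Fun k) (c : k) : Crd E where
  val W _ _ _ := algebraMap k W c
  nat f _ := f.commutes c

/-- differences -/
def Crd.sub {E : Fun k} (u v : Crd E) : Crd E where
  val W _ _ x := u.val W x - v.val W x
  nat f x := by rw [map_sub, u.nat, v.nat]

/-- the coordinate on the line -/
def crdLine : Crd (line (k := k)) where
  val _ _ _ x := x
  nat _ _ := rfl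

theorem Rep.prod {E B : Fun k} {p : Pr E} {q : Pr B} {A C : Type} [CommRing A] [Algebra k A]
    [CommRing C] [Algebra k C] {a : E.obj A} {c : B.obj C} (h : Rep E p A a) (h' : Rep B q C c) :
    Rep (E.prod B) (fun W _ _ x => p W x.1 ∧ q W x.2) (A ⊗[k] C)
      (E.map Algebra.TensorProduct.includeLeft a, B.map Algebra.TensorProduct.includeRight c) := by
  refine ⟨?_, ?_, ?_⟩
  · intro W _ _ f
    refine ⟨?_, ?_⟩
    · change p W (E.map f (E.map _ a))
      rw [← E.comp_map]
      exact h.mem W _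
    · change q W (B.map f (B.map _ c))
      rw [← B.comp_map]
      exact h'.mem W _
  · rintro W _ _ x ⟨hx, hx2⟩
    obtain ⟨f, hf⟩ := h.ex W x.1 hx
    obtain ⟨g, hg⟩ := h'.ex W x.2 hx2
    refine ⟨Algebra.TensorProduct.lift f g (fun _ _ => .all _ _), Prod.ext ?_ ?_⟩
    · change E.map _ (E.map _ a) = x.1
      rw [← E.comp_map, Algebra.TensorProduct.lift_comp_includeLeft, hf]
    · change B.map _ (B.map _ c) = x.2
      rw [← B.comp_map, ← hg]
      congr 1
      ext b
      simp
  · intro W _ _ f g hfg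
    have h1 : E.map f (E.map _ a) = E.map g (E.map _ a) := congrArg Prod.fst hfg
    have h2 : B.map f (B.map _ c) = B.map g (B.map _ c) := congrArg Prod.snd hfg
    rw [← E.comp_map, ← E.comp_map] at h1
    rw [← B.comp_map, ← B.comp_map] at h2
    exact Algebra.TensorProduct.ext' fun x y => by
      have h3 := DFunLike.congr_fun (h.uniq W _ _ h1) x
      have h4 := DFunLike.congr_fun (h'.uniq W _ _ h2) y
      simp only [AlgHom.comp_apply, Algebra.TensorProduct.includeLeft_apply,
        Algebra.TensorProduct.includeRight_apply] at h3 h4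
      have h5 : x ⊗ₜ[k] y = (x ⊗ₜ[k] (1 : C)) * ((1 : A) ⊗ₜ[k] y) := by
        rw [Algebra.TensorProduct.tmul_mul_tmul, mul_one, one_mul]
      rw [h5, map_mul, map_mul, h3, h4]

theorem Rep.kum {E : Fun k} {p : Pr E} {A : Type} [CommRing A] [Algebra k A] {a : E.obj A}
    (h : Rep E p A a) (u : Crd E) (d : ℕ) :
    Rep (E.prod line) (fun W _ _ x => p W x.1 ∧ x.2 ^ d = u.val W x.1) (Kum A (u.val A a) d)
      (E.map (Algebra.ofId A _ |>.restrictScalars k) a,
        AdjoinRoot.root (Polynomial.X ^ d - Polynomial.C (u.val A a) : Polynomial A)) := by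
  set K := Kum A (u.val A a) d with hK
  have h0 : ∀ b : A, (Algebra.ofId A K |>.restrictScalars k) b = algebraMap A K b := fun _ => rfl
  have hroot : (AdjoinRoot.root (Polynomial.X ^ d - Polynomial.C (u.val A a) :
      Polynomial A)) ^ d = algebraMap A K (u.val A a) := by
    have := AdjoinRoot.eval₂_root (Polynomial.X ^ d - Polynomial.C (u.val A a) : Polynomial A)
    rw [Polynomial.eval₂_sub, Polynomial.eval₂_C, Polynomial.eval₂_pow, Polynomial.eval₂_X,
      sub_eq_zero] at this
    exact this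
  refine ⟨?_, ?_, ?_⟩
  · intro W _ _ f
    refine ⟨?_, ?_⟩
    · change p W (E.map f (E.map _ a))
      rw [← E.comp_map]
      exact h.mem W _
    · change (f (AdjoinRoot.root _)) ^ d = u.val W (E.map f (E.map _ a))
      rw [← map_pow, hroot, ← u.nat, ← u.nat]
      rfl
  · rintro W _ _ x ⟨hx, hx2⟩
    obtain ⟨f, hf⟩ := h.ex W x.1 hx
    have h1 : Polynomial.eval₂ (f : A →+* W) x.2
        (Polynomial.X ^ d - Polynomial.C (u.val A a) : Polynomial A) = 0 := by
      rw [Polynomial.eval₂_sub, Polynomial.eval₂_C, Polynomial.eval₂_pow, Polynomial.eval₂_X]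
      have h2 : (f : A →+* W) (u.val A a) = u.val W x.1 := by
        change f (u.val A a) = _
        rw [u.nat, hf]
      rw [h2]
      exact sub_eq_zero.2 hx2
    refine ⟨AdjoinRoot.liftAlgHom _ f x.2 h1, Prod.ext ?_ ?_⟩
    · change E.map _ (E.map _ a) = x.1
      rw [← E.comp_map, ← hf]
      congr 1
      ext b
      exact AdjoinRoot.lift_of h1
    · change AdjoinRoot.liftAlgHom _ f x.2 h1 (AdjoinRoot.root _) = x.2
      exact AdjoinRoot.lift_root h1
  · intro W _ _ f g hfg
    have h1 : E.map f (E.map _ a) = E.map g (E.map _ a) := congrArg Prod.fst hfg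
    have h2 : f (AdjoinRoot.root _) = g (AdjoinRoot.root _) := congrArg Prod.snd hfg
    rw [← E.comp_map, ← E.comp_map] at h1
    have h3 := h.uniq W _ _ h1
    have h4 : (f : K →+* W) = (g : K →+* W) := by
      apply AdjoinRoot.ringHom_ext
      · ext b
        exact DFunLike.congr_fun h3 b
      · exact h2
    exact AlgHom.ext fun b => RingHom.congr_fun h4 b

end Pool.Agent.Helper62.RO
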