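import Pool.Agent.Helper62.RO.Calc

/-!
# Classes of algebras closed under gluing and Kummer covers
-/

namespace Pool.Agent.Helper62.RO

open TensorProduct
open Pool.Agent.Helper62.TS

/-- Classes of finitely generated `k`-algebras closed under isomorphisms, gluing along principal
closed subsets, descent along Kummer covers of admissible degrees and tensor products, which
contain all curves. -/
structure KClass (k : Type) [Field k] (Adm : ℕ → Prop) (M : Cls k) : Prop where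
  adm_ne : ∀ d, Adm d → d ≠ 0
  adm_one : Adm 1
  adm_mul : ∀ d e, Adm d → Adm e → Adm (d * e)
  ft : ∀ (A : Type) [CommRing A] [Algebra k A], M A → Algebra.FiniteType k A
  iso : ∀ (A B : Type) [CommRing A] [Algebra k A] [CommRing B] [Algebra k B],
    (A ≃ₐ[k] B) → M A → M B
  glue : ∀ (A : Type) [CommRing A] [Algebra k A] (a : A), Algebra.FiniteType k A →
    M (A ⧸ Ideal.span {a}) → M (Localization.Away a) → M A
  kummer : ∀ (A : Type) [CommRing A] [Algebra k A] (a : A) (d : ℕ), Algebra.FiniteType k A →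
    IsUnit a → Adm d → M (Kum A a d) → M A
  tensor : ∀ (A B : Type) [CommRing A] [Algebra k A] [CommRing B] [Algebra k B],
    M A → M B → M (A ⊗[k] B)
  curve : ∀ (C : Type) [CommRing C] [Algebra k C], Algebra.FiniteType k C →
    ringKrullDim C ≤ 1 → M C

variable {k : Type} [Field k] {Adm : ℕ → Prop} {M : Cls k}

theorem Good.ft (hM : KClass k Adm M) {E : Fun k} {p : Pr E} (h : Good M E p) :
    Good (Ft k) E p := h.mono (fun A _ _ hA => hM.ft A hA)

theorem Good.of_curve (hM : KClass k Adm M) {E : Fun k} {p : Pr E} (h : Good (Cv k) E p) :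
    Good M E p := h.mono (fun A _ _ hA => hM.curve A hA.1 hA.2)

theorem Good.cv_ft {E : Fun k} {p : Pr E} (h : Good (Cv k) E p) :
    Good (Ft k) E p := h.mono (fun A _ _ hA => hA.1)

theorem Good.ft_cls {E : Fun k} {p : Pr E} (h : Good (Ft k) E p) {J : Type} (u : J → Crd E) :
    Good (Ft k) E (fun W _ _ x => p W x ∧ ∀ j, (u j).val W x = 0) := by
  obtain ⟨A, _, _, a, ha, hA⟩ := h
  have := hA
  exact ⟨_, _, _, _, ha.cls u, Algebra.FiniteType.trans (S := A) hA inferInstance⟩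

theorem Good.ft_cls1 {E : Fun k} {p : Pr E} (h : Good (Ft k) E p) (u : Crd E) :
    Good (Ft k) E (fun W _ _ x => p W x ∧ u.val W x = 0) := by
  obtain ⟨A, _, _, a, ha, hA⟩ := h
  exact ⟨_, _, _, _, ha.cls1 u, Algebra.FiniteType.trans (S := A) hA inferInstance⟩

theorem Good.ft_eqs {E : Fun k} {p : Pr E} (h : Good (Ft k) E p) {J : Type} (u v : J → Crd E) :
    Good (Ft k) E (fun W _ _ x => p W x ∧ ∀ j, (u j).val W x = (v j).val W x) :=
  (h.ft_cls (fun j => (u j).sub (v j))).congr (fun W _ _ x => by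
    simp only [Crd.sub, sub_eq_zero])

theorem Good.ft_eq1 {E : Fun k} {p : Pr E} (h : Good (Ft k) E p) (u v : Crd E) :
    Good (Ft k) E (fun W _ _ x => p W x ∧ u.val W x = v.val W x) :=
  (h.ft_cls1 (u.sub v)).congr (fun W _ _ x => by simp only [Crd.sub, sub_eq_zero])

theorem Good.ft_opn {E : Fun k} {p : Pr E} (h : Good (Ft k) E p) (u : Crd E) :
    Good (Ft k) E (fun W _ _ x => p W x ∧ IsUnit (u.val W x)) := by
  obtain ⟨A, _, _, a, ha, hA⟩ := h
  exact ⟨_, _, _, _, ha.opn u, Algebra.FiniteType.trans (S := A) hA inferInstance⟩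

theorem Good.ft_prod {E B : Fun k} {p : Pr E} {q : Pr B} (h : Good (Ft k) E p)
    (h' : Good (Ft k) B q) : Good (Ft k) (E.prod B) (fun W _ _ x => p W x.1 ∧ q W x.2) := by
  obtain ⟨A, _, _, a, ha, hA⟩ := h
  obtain ⟨C, _, _, c, hc, hC⟩ := h'
  exact ⟨_, _, _, _, ha.prod hc, ft_tensor hA hC⟩

theorem Good.ft_kum {E : Fun k} {p : Pr E} (h : Good (Ft k) E p) (u : Crd E) (d : ℕ) :
    Good (Ft k) (E.prod line) (fun W _ _ x => p W x.1 ∧ x.2 ^ d = u.val W x.1) := by
  obtain ⟨A, _, _, a, ha, hA⟩ := h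
  exact ⟨_, _, _, _, ha.kum u d, Algebra.FiniteType.trans (S := A) hA inferInstance⟩

theorem Good.cv_cls1 {E : Fun k} {p : Pr E} (h : Good (Cv k) E p) (u : Crd E) :
    Good (Cv k) E (fun W _ _ x => p W x ∧ u.val W x = 0) := by
  obtain ⟨A, _, _, a, ha, hA⟩ := h
  exact ⟨_, _, _, _, ha.cls1 u, Algebra.FiniteType.trans (S := A) hA.1 inferInstance,
    (ringKrullDim_quotient_le _).trans hA.2⟩

theorem Good.cv_opn {E : Fun k} {p : Pr E} (h : Good (Cv k) E p) (u : Crd E) :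
    Good (Cv k) E (fun W _ _ x => p W x ∧ IsUnit (u.val W x)) := by
  obtain ⟨A, _, _, a, ha, hA⟩ := h
  exact ⟨_, _, _, _, ha.opn u, Algebra.FiniteType.trans (S := A) hA.1 inferInstance,
    (dim_away_le _).trans hA.2⟩

theorem Good.cv_kum {E : Fun k} {p : Pr E} (h : Good (Cv k) E p) (u : Crd E) (d : ℕ)
    (hd : d ≠ 0) :
    Good (Cv k) (E.prod line) (fun W _ _ x => p W x.1 ∧ x.2 ^ d = u.val W x.1) := by
  obtain ⟨A, _, _, a, ha, hA⟩ := h
  have hfin : Module.Finite A (Kum A (u.val A a) d) :=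
    (Polynomial.monic_X_pow_sub_C _ hd).finite_adjoinRoot
  exact ⟨_, _, _, _, ha.kum u d, Algebra.FiniteType.trans (S := A) hA.1 inferInstance,
    (dim_integral_le (R := A)).trans hA.2⟩

theorem Good.glue (hM : KClass k Adm M) {E : Fun k} {p : Pr E} (h : Good (Ft k) E p) (u : Crd E)
    (h1 : Good M E (fun W _ _ x => p W x ∧ u.val W x = 0))
    (h2 : Good M E (fun W _ _ x => p W x ∧ IsUnit (u.val W x))) : Good M E p := by
  obtain ⟨A, _, _, a, ha, hA⟩ := h
  obtain ⟨A1, _, _, a1, ha1, hA1⟩ := h1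
  obtain ⟨A2, _, _, a2, ha2, hA2⟩ := h2
  obtain ⟨e1⟩ := ha1.equiv (ha.cls1 u)
  obtain ⟨e2⟩ := ha2.equiv (ha.opn u)
  exact ⟨A, _, _, a, ha, hM.glue A _ hA (hM.iso _ _ e1 hA1) (hM.iso _ _ e2 hA2)⟩

theorem Good.kummer (hM : KClass k Adm M) {E : Fun k} {p : Pr E} (h : Good (Ft k) E p)
    (u : Crd E) (d : ℕ) (hd : Adm d)
    (hu : ∀ (W : Type) [CommRing W] [Algebra k W] (x : E.obj W), p W x → IsUnit (u.val W x))
    (h1 : Good M (E.prod line) (fun W _ _ x => p W x.1 ∧ x.2 ^ d = u.val W x.1)) :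
    Good M E p := by
  obtain ⟨A, _, _, a, ha, hA⟩ := h
  obtain ⟨A1, _, _, a1, ha1, hA1⟩ := h1
  obtain ⟨e1⟩ := ha1.equiv (ha.kum u d)
  exact ⟨A, _, _, a, ha, hM.kummer A _ d hA (hu A a ha.mem_self) hd (hM.iso _ _ e1 hA1)⟩

theorem Good.prod (hM : KClass k Adm M) {E B : Fun k} {p : Pr E} {q : Pr B} (h : Good M E p)
    (h' : Good M B q) : Good M (E.prod B) (fun W _ _ x => p W x.1 ∧ q W x.2) := by
  obtain ⟨A, _, _, a, ha, hA⟩ := h
  obtain ⟨C, _, _, c, hc, hC⟩ := h'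
  exact ⟨_, _, _, _, ha.prod hc, hM.tensor _ _ hA hC⟩

theorem Good.empty (hM : KClass k Adm M) {E : Fun k} {p : Pr E} (h : Good (Ft k) E p)
    (h1 : ∀ (W : Type) [CommRing W] [Algebra k W] (x : E.obj W), p W x → Subsingleton W) :
    Good M E p := by
  obtain ⟨A, _, _, a, ha, hA⟩ := h
  have := h1 A a ha.mem_self
  refine ⟨A, _, _, a, ha, hM.curve A hA ?_⟩
  rw [ringKrullDim_eq_bot_of_subsingleton]
  exact bot_le

theorem Good.mem (hM : KClass k Adm M) {E : Fun k} {p : Pr E} (h : Good M E p) {A : Type}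
    [CommRing A] [Algebra k A] {a : E.obj A} (ha : Rep E p A a) : M A := by
  obtain ⟨B, _, _, b, hb, hB⟩ := h
  obtain ⟨e⟩ := hb.equiv ha
  exact hM.iso _ _ e hB

end Pool.Agent.Helper62.RO
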