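import Pool.Agent.Helper62.RO.Strata

/-!
# Diagonalizable groups
-/

namespace Pool.Agent.Helper62.RO

open TensorProduct
open Pool.Agent.Helper62.TS

variable {k : Type} [Field k] {Adm : ℕ → Prop} {M : Cls k}

theorem rep_line : Rep (line (k := k)) (fun _ _ _ _ => True) (Polynomial k) Polynomial.X := by
  refine ⟨fun _ _ _ _ => trivial, ?_, ?_⟩
  · intro W _ _ x _
    exact ⟨Polynomial.aeval x, Polynomial.aeval_X x⟩
  · intro W _ _ f g hfg
    exact Polynomial.algHom_ext hfg

theorem good_cv_line : Good (Cv k) line (fun _ _ _ _ => True) := by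
  refine ⟨_, _, _, _, rep_line, inferInstance, ?_⟩
  rw [Polynomial.ringKrullDim_of_isNoetherianRing, ringKrullDim_eq_zero_of_field]
  simp

/-- the function `x ^ q` on the line -/
def crdPow (q : ℕ) : Crd (line (k := k)) where
  val W _ _ x := x ^ q
  nat f x := map_pow f x q

theorem good_gm (q : ℕ) :
    Good (Cv k) line (fun W _ _ x => IsUnit x ∧ x ^ q = 1) := by
  have h1 := (good_cv_line (k := k)).cv_opn crdLine
  refine (h1.cv_cls1 ((crdPow q).sub (Crd.bt _ true))).congr (fun W _ _ x => ?_)
  change ((True ∧ IsUnit x) ∧ x ^ q - 1 = 0) ↔ _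
  rw [sub_eq_zero]
  tauto

theorem good_pi (hM : KClass k Adm M) (κ : Type) [Finite κ] : ∀ q : κ → ℕ,
    Good M (Tor κ) (fun W _ _ y => ∀ i, y i ^ q i = 1) := by
  induction κ using Finite.induction_empty_option with
  | of_equiv e ih =>
    rename_i α β
    intro q
    refine (ih (fun i => q (e i))).iso (E' := Tor β)
      (fun W _ _ (x : (Tor α).obj W) => fun i => x (e.symm i))
      (fun W _ _ (x : (Tor β).obj W) => fun i => x (e i)) ?_ ?_ ?_ ?_
      (fun _ _ _ _ _ _ _ _ _ => rfl)
    · intro W _ _ x hx i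
      have := hx (e.symm i)
      rwa [e.apply_symm_apply] at this
    · intro W _ _ x hx i
      exact hx (e i)
    · intro W _ _ x hx
      funext i
      change x (e.symm (e i)) = x i
      rw [e.symm_apply_apply]
    · intro W _ _ x hx
      funext i
      change x (e (e.symm i)) = x i
      rw [e.apply_symm_apply]
  | h_empty =>
    intro q
    apply good_tor
    have h1 := rep_aff (k := k) PEmpty
    have h2 : Good M (Aff (k := k) PEmpty) (fun _ _ _ _ => True) := by
      refine ⟨_, _, _, _, h1, hM.curve _ inferInstance ?_⟩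
      rw [MvPolynomial.ringKrullDim_of_isNoetherianRing, ringKrullDim_eq_zero_of_field]
      simp
    refine h2.congr (fun W _ _ x => ?_)
    constructor
    · intro _
      exact ⟨fun i => i.elim, fun i => i.elim⟩
    · intro _
      trivial
  | h_option ih =>
    rename_i α _
    intro q
    have h1 := (ih (fun i => q (some i))).prod hM ((good_gm (k := k) (q none)).of_curve hM)
    refine h1.iso (E' := Tor (Option α))
      (fun W _ _ (x : ((Tor α).prod line).obj W) => fun o => o.elim (toU (fun _ : Unit => x.2) ()) x.1)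
      (fun W _ _ (x : (Tor (Option α)).obj W) => (fun i => x (some i), (x none : W))) ?_ ?_ ?_ ?_ ?_
    · rintro W _ _ ⟨x, v⟩ ⟨h1, h2, h3⟩ o
      cases o with
      | none =>
        ext
        change ((toU (fun _ : Unit => v) () ^ q none : Wˣ) : W) = 1
        rw [Units.val_pow_eq_pow_val, toU_val (y := fun _ : Unit => v) (i := ()) h2]
        exact h3
      | some i => exact h1 i
    · rintro W _ _ x hx
      refine ⟨fun i => hx (some i), (x none).isUnit, ?_⟩
      change ((x none : W)) ^ q none = 1
      rw [← Units.val_pow_eq_pow_val, hx none, Units.val_one]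
    · rintro W _ _ ⟨x, v⟩ ⟨h1, h2, h3⟩
      exact Prod.ext rfl (toU_val (y := fun _ : Unit => v) (i := ()) h2)
    · rintro W _ _ x hx
      funext o
      cases o with
      | none =>
        ext
        exact toU_val (y := fun _ : Unit => (x none : W)) (i := ()) (x none).isUnit
      | some i => rfl
    · rintro W V _ _ _ _ f ⟨x, v⟩ ⟨h1, h2, h3⟩
      funext o
      cases o with
      | none =>
        ext
        change f (toU (fun _ : Unit => v) ()) = toU (fun _ : Unit => f v) ()
        rw [toU_val (y := fun _ : Unit => v) (i := ()) h2,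
          toU_val (y := fun _ : Unit => f v) (i := ()) (h2.map f)]
      | some i => rfl

/-- the data of a decomposition of a finitely generated abelian group as a product of cyclic
groups, in terms of monomials -/
def DiagData {V L : Type} [Fintype V] (c : L → V → ℤ) : Prop :=
  ∃ (κ : Type) (_ : Fintype κ) (q : κ → ℕ) (P : κ → V → ℤ) (R : V → κ → ℤ),
    ∀ (G : Type) [CommGroup G],
      (∀ u : V → G, (∀ l, ∏ v, u v ^ c l v = 1) → (∀ i, (∏ v, u v ^ P i v) ^ q i = 1) ∧
        ∀ v, ∏ i, (∏ v', u v' ^ P i v') ^ R v i = u v) ∧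
      (∀ y : κ → G, (∀ i, y i ^ q i = 1) → (∀ l, ∏ v, (∏ i, y i ^ R v i) ^ c l v = 1) ∧
        ∀ i, ∏ v, (∏ i', y i' ^ R v i') ^ P i v = y i)

theorem good_diag (hM : KClass k Adm M) {V L : Type} [Fintype V] {c : L → V → ℤ}
    (h : DiagData c) : Good M (Tor V) (fun W _ _ u => ∀ l, ∏ v, u v ^ c l v = 1) := by
  obtain ⟨κ, _, q, P, R, h⟩ := h
  refine (good_pi hM κ q).iso (E' := Tor V)
    (fun W _ _ (y : (Tor κ).obj W) => fun v => ∏ i, y i ^ R v i)
    (fun W _ _ (u : (Tor V).obj W) => fun i => ∏ v, u v ^ P i v) ?_ ?_ ?_ ?_ ?_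
  · intro W _ _ y hy
    exact ((h Wˣ).2 y hy).1
  · intro W _ _ u hu
    exact ((h Wˣ).1 u hu).1
  · intro W _ _ y hy
    funext i
    exact ((h Wˣ).2 y hy).2 i
  · intro W _ _ u hu
    funext v
    exact ((h Wˣ).1 u hu).2 v
  · intro W V' _ _ _ _ f y hy
    funext v
    change um f (∏ i, y i ^ R v i) = ∏ i, um f (y i) ^ R v i
    rw [map_prod]
    simp_rw [map_zpow]

end Pool.Agent.Helper62.RO
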