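import Pool.Agent.Helper62.RO.TorMono
import Pool.Agent.Helper9.FT.Shapes
import Pool.Agent.Helper9.FT.Dim

/-!
# Hypersurfaces with few terms
-/

namespace Pool.Agent.Helper62.RO

open TensorProduct
open Pool.Agent.Helper62.TS
open Pool.Agent.Helper9.FT (cochar_rat diag_data planar_basis dim_plane_le exists_dual_nat)

variable {k : Type} [Field k] {Adm : ℕ → Prop} {M : Cls k}

theorem diagData {V : Type} [Fintype V] (L : Type) [Finite L] (c : L → V → ℤ) : DiagData c :=
  diag_data c

/-- The vectors `v a` are affinely independent over the field `F`. -/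
def AffIndep {F V A : Type} [Field F] [Fintype A] (v : A → V → F) : Prop :=
  ∀ l : A → F, ∑ a, l a = 0 → (∀ i, ∑ a, l a * v a i = 0) → ∀ a, l a = 0

theorem affIndep_of {F V A : Type} [Field F] [Fintype A] {v : A → V → F}
    (h : AffineIndependent F v) : AffIndep v := by
  intro l h1 h2 a
  have h3 := (affineIndependent_iff (k := F) (V := V → F) (p := v)).1 h Finset.univ l h1 (by
    funext i
    rw [Finset.sum_apply]
    simpa using h2 i)
  exact h3 a (Finset.mem_univ a)

/-- The vectors `v a` lie in an affine plane. -/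
def Coplanar {V A : Type} (v : A → V → ℚ) : Prop :=
  ∃ x y : V → ℚ, ∀ a a', ∃ α β : ℚ, ∀ i, v a i - v a' i = α * x i + β * y i

/-- sums of Laurent monomials -/
noncomputable def lsum {V A : Type} [Fintype V] [Fintype A] (c : A → k) (v : A → V → ℤ)
    (W : Type) [CommRing W] [Algebra k W] (s : V → Wˣ) : W :=
  ∑ a, algebraMap k W (c a) * ((∏ i, s i ^ v a i : Wˣ) : W)

theorem lsum_shift {V A : Type} [Fintype V] [Fintype A] (c : A → k) (v : A → V → ℤ)
    (v0 : V → ℤ) (W : Type) [CommRing W] [Algebra k W] (s : V → Wˣ) :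
    lsum c v W s = ((∏ i, s i ^ v0 i : Wˣ) : W) * lsum c (fun a i => v a i - v0 i) W s := by
  rw [lsum, lsum, Finset.mul_sum]
  apply Finset.sum_congr rfl
  intro a _
  have h1 : ∏ i, s i ^ v a i = (∏ i, s i ^ v0 i) * ∏ i, s i ^ (v a i - v0 i) := by
    rw [← Finset.prod_mul_distrib]
    apply Finset.prod_congr rfl
    intro i _
    rw [← zpow_add]
    congr 1
    ring
  rw [h1, Units.val_mul]
  ring

theorem lsum_shift_iff {V A : Type} [Fintype V] [Fintype A] (c : A → k) (v : A → V → ℤ)
    (v0 : V → ℤ) (W : Type) [CommRing W] [Algebra k W] (s : V → Wˣ) :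
    lsum c v W s = 0 ↔ lsum c (fun a i => v a i - v0 i) W s = 0 := by
  rw [lsum_shift c v v0, Units.mul_right_eq_zero]

/-- torus hypersurfaces with affinely independent exponents -/
theorem few_torus_indep (hM : KClass k Adm M) (F : Type) [Field F]
    (hadm : ∀ d : ℕ, (d : F) ≠ 0 → Adm d) {V A : Type}
    [Fintype V] [Fintype A] (σ : V → Bool) (c : A → k) (v : A → V → ℤ) (a0 : A)
    (hv : ∀ a i, σ i = false → v a i = 0) (h : AffIndep (fun a i => (v a i : F))) :
    Good M (Tor V) (fun W _ _ s => offOne σ W s ∧ lsum c v W s = 0) := by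
  classical
  let J := {a // a ≠ a0}
  let b : J → V → ℤ := fun a i => v a.1 i - v a0 i
  have hb : LinearIndependent F (fun (j : J) i => (b j i : F)) := by
    rw [Fintype.linearIndependent_iff]
    intro g hg j
    have h1 := h (fun a => if h : a ≠ a0 then g ⟨a, h⟩ else - ∑ j, g j) ?_ ?_ j.1
    · rwa [dif_pos j.2] at h1
    · rw [← Finset.add_sum_erase _ _ (Finset.mem_univ a0), dif_neg (by simp)]
      rw [Finset.sum_subtype (Finset.univ.erase a0) (p := fun a => a ≠ a0) (by simp)]
      rw [neg_add_eq_zero]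
      apply Finset.sum_congr rfl
      intro j _
      rw [dif_pos j.2]
    · intro i
      have h2 := congrFun hg i
      simp only [Finset.sum_apply, Pi.smul_apply, smul_eq_mul, Pi.zero_apply] at h2
      rw [← Finset.add_sum_erase _ _ (Finset.mem_univ a0), dif_neg (by simp)]
      rw [Finset.sum_subtype (Finset.univ.erase a0) (p := fun a => a ≠ a0) (by simp)]
      rw [← h2]
      have h3 : ∀ j : J, (if h : j.1 ≠ a0 then g ⟨j.1, h⟩ else - ∑ j, g j) * (v j.1 i : F) =
          g j * (b j i : F) + g j * (v a0 i : F) := by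
        intro j
        rw [dif_pos j.2]
        simp only [b]
        push_cast
        ring
      rw [Finset.sum_congr rfl (fun j _ => h3 j), Finset.sum_add_distrib, ← Finset.sum_mul]
      ring
  obtain ⟨e, L, he, hL⟩ := exists_dual_nat b hb
  have h1 := good_tor_mono hM (fun L _ c => diagData L c) σ b
    (fun j i hi => by simp [b, hv _ i hi]) (hadm e he) hL
    (ug_linear hM (c a0) (fun j : J => c j.1))
  refine h1.congr (fun W _ _ s => and_congr_right fun _ => ?_)
  rw [lsum_shift_iff c v (v a0)]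
  have h2 : lsum c (fun a i => v a i - v a0 i) W s =
      algebraMap k W (c a0) + ∑ j : J, algebraMap k W (c j.1) *
        ((∏ i, s i ^ b j i : Wˣ) : W) := by
    rw [lsum, ← Finset.add_sum_erase _ _ (Finset.mem_univ a0)]
    congr 1
    · simp
    · rw [← Finset.sum_subtype (Finset.univ.erase a0) (p := fun a => a ≠ a0) (by simp)
        (fun a => algebraMap k W (c a) * ((∏ i, s i ^ (v a i - v a0 i) : Wˣ) : W))]
  rw [h2]
  change (∀ f ∈ ({_} : Set _), _) ↔ _
  simp only [Set.mem_singleton_iff, forall_eq]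
  rw [map_add, MvPolynomial.aeval_C, map_sum]
  simp_rw [map_mul, MvPolynomial.aeval_C, MvPolynomial.aeval_X]

/-- torus hypersurfaces with coplanar exponents -/
theorem few_torus_planar (hM : KClass k Adm M) (hadm : ∀ d, d ≠ 0 → Adm d) {V A : Type}
    [Fintype V] [Fintype A] (σ : V → Bool) (c : A → k) (hc : ∀ a, c a ≠ 0) (v : A → V → ℤ)
    (a0 : A) (hv : ∀ a i, σ i = false → v a i = 0) (hinj : Function.Injective v)
    (h : Coplanar (fun a i => (v a i : ℚ))) :
    Good M (Tor V) (fun W _ _ s => offOne σ W s ∧ lsum c v W s = 0) := by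
  classical
  have h' : Module.finrank ℚ (Submodule.span ℚ
      (Set.range fun a i => ((v a i - v a0 i : ℤ) : ℚ))) ≤ 2 := by
    obtain ⟨x, y, hxy⟩ := h
    have h1 : Submodule.span ℚ (Set.range fun a i => ((v a i - v a0 i : ℤ) : ℚ)) ≤
        Submodule.span ℚ (Set.range ![x, y]) := by
      rw [Submodule.span_le]
      rintro _ ⟨a, rfl⟩
      obtain ⟨α, β, h1⟩ := hxy a a0
      have h2 : (fun i => ((v a i - v a0 i : ℤ) : ℚ)) = α • x + β • y := by
        funext i
        rw [Pi.add_apply, Pi.smul_apply, Pi.smul_apply, smul_eq_mul, smul_eq_mul, ← h1 i]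
        push_cast
        rfl
      change (fun i => ((v a i - v a0 i : ℤ) : ℚ)) ∈ _
      rw [h2]
      exact Submodule.add_mem _ (Submodule.smul_mem _ _ (Submodule.subset_span ⟨0, rfl⟩))
        (Submodule.smul_mem _ _ (Submodule.subset_span ⟨1, rfl⟩))
    have h2 := Submodule.finrank_mono h1
    have h3 := finrank_range_le_card (R := ℚ) ![x, y]
    rw [Fintype.card_fin] at h3
    exact h2.trans h3
  obtain ⟨r, b, x, hr, hb, hx, hb0⟩ := planar_basis v a0 h'
  obtain ⟨e, L, he, hL⟩ := cochar_rat b hb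
  obtain ⟨n, hn⟩ : ∃ n : ℕ, ∀ a j, 0 ≤ x a j + n := by
    refine ⟨∑ a, ∑ j, (x a j).natAbs, fun a j => ?_⟩
    have h1 : (x a j).natAbs ≤ ∑ a, ∑ j, (x a j).natAbs :=
      (Finset.single_le_sum (f := fun j => (x a j).natAbs) (fun _ _ => Nat.zero_le _)
        (Finset.mem_univ j)).trans
      (Finset.single_le_sum (f := fun a => ∑ j, (x a j).natAbs) (fun _ _ => Nat.zero_le _)
        (Finset.mem_univ a))
    omega
  let dd : A → (Fin r →₀ ℕ) := fun a => Finsupp.equivFunOnFinite.symm fun j => (x a j + n).toNat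
  have hdd : ∀ a j, ((dd a j : ℕ) : ℤ) = x a j + n := fun a j => Int.toNat_of_nonneg (hn a j)
  have hddinj : Function.Injective dd := by
    intro a a' haa
    apply hinj
    funext i
    have h1 : ∀ j, x a j = x a' j := by
      intro j
      have h2 := hdd a j
      rw [haa, hdd a' j] at h2
      omega
    have h2 := hx a i
    have h3 := hx a' i
    simp_rw [h1] at h2
    omega
  let f : MvPolynomial (Fin r) k := ∑ a, MvPolynomial.monomial (dd a) (c a)
  have hf : f ≠ 0 := by
    intro h0
    have h1 : MvPolynomial.coeff (dd a0) f = c a0 := by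
      rw [MvPolynomial.coeff_sum, Finset.sum_eq_single a0]
      · simp
      · intro a _ hne
        rw [MvPolynomial.coeff_monomial, if_neg (fun h => hne (hddinj h))]
      · intro h
        exact absurd (Finset.mem_univ a0) h
    rw [h0, MvPolynomial.coeff_zero] at h1
    exact hc a0 h1.symm
  have h1 := good_tor_mono hM (fun L _ c => diagData L c) σ b
    (fun j i hi => hb0 i (fun a => by rw [hv a i hi, hv a0 i hi]) j) (hadm e he) hL
    (ug_curve hM (dim_plane_le (by simpa using hr) hf))
  refine h1.congr (fun W _ _ s => and_congr_right fun _ => ?_)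
  rw [lsum_shift_iff c v (v a0)]
  have h2 : VS {f} W (fun j => ((∏ i, s i ^ b j i : Wˣ) : W)) ↔
      ((∏ j, (∏ i, s i ^ b j i) ^ n : Wˣ) : W) * lsum c (fun a i => v a i - v a0 i) W s = 0 := by
    change (∀ f' ∈ ({f} : Set _), _) ↔ _
    simp only [Set.mem_singleton_iff, forall_eq]
    have h3 : MvPolynomial.aeval (fun j => ((∏ i, s i ^ b j i : Wˣ) : W)) f =
        ((∏ j, (∏ i, s i ^ b j i) ^ n : Wˣ) : W) *
          lsum c (fun a i => v a i - v a0 i) W s := by
      rw [lsum, Finset.mul_sum, map_sum]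
      apply Finset.sum_congr rfl
      intro a _
      rw [MvPolynomial.aeval_monomial, Finsupp.prod_fintype _ _ (fun _ => pow_zero _)]
      have h4 : ∏ i, s i ^ (v a i - v a0 i) = ∏ j, (∏ i, s i ^ b j i) ^ x a j := by
        simp_rw [hx a, ← Finset.prod_zpow]
        rw [Finset.prod_comm]
        apply Finset.prod_congr rfl
        intro i _
        rw [← prod_zpow_sum]
        apply Finset.prod_congr rfl
        intro j _
        rw [← zpow_mul, mul_comm]
      have h5 : ∏ j, (((∏ i, s i ^ b j i : Wˣ) : W)) ^ (dd a j) =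
          ((∏ j, (∏ i, s i ^ b j i) ^ n : Wˣ) : W) *
            ((∏ i, s i ^ (v a i - v a0 i) : Wˣ) : W) := by
        rw [h4, ← Units.val_mul, ← Finset.prod_mul_distrib, Units.coe_prod]
        apply Finset.prod_congr rfl
        intro j _
        rw [← Units.val_pow_eq_pow_val, ← zpow_natCast, hdd, add_comm, zpow_add, zpow_natCast]
      rw [h5]
      ring
    rw [h3]
  rw [h2, Units.mul_right_eq_zero]

theorem sum_dite_sub {F : Type} [Field F] {B : Type} [Fintype B] {P : B → Prop}
    [DecidablePred P] [Fintype {b // P b}] (l : {b // P b} → F) :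
    ∑ d : B, (if h : P d then l ⟨d, h⟩ else 0) = ∑ a, l a := by
  classical
  rw [← Finset.sum_subset (Finset.subset_univ (Finset.univ.filter P))]
  · rw [Finset.sum_subtype (p := P) _ (by simp)]
    apply Finset.sum_congr rfl
    intro a _
    rw [dif_pos a.2]
  · intro d _ hd
    rw [dif_neg]
    intro h
    exact hd (by simp [h])

/-- reduction of hypersurfaces to sums of Laurent monomials on tori -/
theorem ug_of_lsum (hM : KClass k Adm M) {V : Type} [Fintype V] (f : MvPolynomial V k)
    (key : ∀ (σ : V → Bool) (m : V → ℕ), (∀ i, Adm (m i)) →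
      ∀ (_ : Fintype {d : f.support // ∀ i, σ i = false → d.1 i = 0}),
      Nonempty {d : f.support // ∀ i, σ i = false → d.1 i = 0} →
      Good M (Tor V) (fun W _ _ s => offOne σ W s ∧
        lsum (fun d : {d : f.support // ∀ i, σ i = false → d.1 i = 0} =>
          MvPolynomial.coeff d.1.1 f) (fun d i => ((m i * d.1.1 i : ℕ) : ℤ)) W s = 0)) :
    UG Adm M {f} := by
  classical
  intro E p z m hE hm ⟨a⟩ hε
  apply good_of_strata hM hm a hε (VS {f}) (good_ft_vs hE z {f})
  intro σ
  let A := {d : f.support // ∀ i, σ i = false → d.1 i = 0}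
  let c : A → k := fun d => MvPolynomial.coeff d.1.1 f
  let v : A → V → ℤ := fun d i => ((m i * d.1.1 i : ℕ) : ℤ)
  have hv : ∀ a i, σ i = false → v a i = 0 := by
    intro d i hi
    simp [v, d.2 i hi]
  -- evaluation on the stratum
  have heval : ∀ (W : Type) [CommRing W] [Algebra k W] (s : V → Wˣ),
      VS {f} W (fun i => if σ i then ((s i ^ m i : Wˣ) : W) else 0) ↔ lsum c v W s = 0 := by
    intro W _ _ s
    change (∀ f' ∈ ({f} : Set _), _) ↔ _
    simp only [Set.mem_singleton_iff, forall_eq]
    have h3 : MvPolynomial.aeval (fun i => if σ i then ((s i ^ m i : Wˣ) : W) else 0) f =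
        lsum c v W s := by
      rw [MvPolynomial.aeval_def, MvPolynomial.eval₂_eq']
      rw [← Finset.sum_coe_sort f.support (fun d => algebraMap k W (MvPolynomial.coeff d f) *
        ∏ i, (if σ i then ((s i ^ m i : Wˣ) : W) else 0) ^ d i)]
      rw [← Finset.sum_subset (Finset.subset_univ
        (Finset.univ.filter (fun d : f.support => ∀ i, σ i = false → d.1 i = 0)))]
      · rw [Finset.sum_subtype (p := fun d : f.support => ∀ i, σ i = false → d.1 i = 0) _
          (by simp)]
        apply Finset.sum_congr rfl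
        intro d _
        congr 1
        rw [Units.coe_prod]
        apply Finset.prod_congr rfl
        intro i _
        cases hσ : σ i
        · have h4 : d.1.1 i = 0 := d.2 i hσ
          have h5 : v d i = 0 := hv d i hσ
          rw [h4, h5]
          simp
        · have h5 : v d i = ((m i * d.1.1 i : ℕ) : ℤ) := rfl
          rw [h5, zpow_natCast, pow_mul]
          simp
      · intro d _ hd
        simp only [Finset.mem_filter, Finset.mem_univ, true_and] at hd
        push Not at hd
        obtain ⟨i, hi1, hi2⟩ := hd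
        have : ∏ i, (if σ i then ((s i ^ m i : Wˣ) : W) else 0) ^ d.1 i = 0 := by
          apply Finset.prod_eq_zero (Finset.mem_univ i)
          rw [hi1]
          simp [hi2]
        rw [this, mul_zero]
    rw [h3]
  have key2 : Good M (Tor V) (fun W _ _ s => offOne σ W s ∧ lsum c v W s = 0) := by
    by_cases hA : Nonempty A
    · exact key σ m hm _ hA
    · refine (good_offOne hM (fun L _ c => diagData L c) σ).congr (fun W _ _ s => ?_)
      rw [not_nonempty_iff] at hA
      simp [lsum]
  refine key2.congr (fun W _ _ s => ?_)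
  rw [heval]
  rfl

/-- hypersurfaces with affinely independent exponents -/
theorem ug_simplex (hM : KClass k Adm M) (F : Type) [Field F]
    (hadm : ∀ d : ℕ, Adm d ↔ (d : F) ≠ 0) {V : Type} [Fintype V]
    (f : MvPolynomial V k)
    (hf : AffIndep (fun (d : f.support) (i : V) => ((d.1 i : ℕ) : F))) :
    UG Adm M {f} := by
  classical
  apply ug_of_lsum hM
  intro σ m hm _ ⟨a0⟩
  let A := {d : f.support // ∀ i, σ i = false → d.1 i = 0}
  have hv : ∀ (a : A) i, σ i = false → ((m i * a.1.1 i : ℕ) : ℤ) = 0 := by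
    intro d i hi
    simp [d.2 i hi]
  have hvm : ∀ (d : A) i, ((((m i * d.1.1 i : ℕ) : ℤ)) : F) = (m i : F) * ((d.1.1 i : ℕ) : F) := by
    intro d i
    push_cast
    rfl
  apply few_torus_indep hM F (fun d hd => (hadm d).2 hd) σ _ _ a0 hv
  intro l hl1 hl2 a
  have h1 := hf (fun d => if h : ∀ i, σ i = false → d.1 i = 0 then l ⟨d, h⟩ else 0) ?_ ?_ a.1
  · rwa [dif_pos a.2] at h1
  · exact (sum_dite_sub l).trans hl1
  · intro i
    have h2 : (m i : F) ≠ 0 := (hadm _).1 (hm i)
    have h3 := hl2 i
    have h4 : ∑ d : f.support, (if h : ∀ i, σ i = false → d.1 i = 0 then l ⟨d, h⟩ else 0) *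
        ((d.1 i : ℕ) : F) = ∑ a : A, l a * ((a.1.1 i : ℕ) : F) := by
      rw [← sum_dite_sub (fun a : A => l a * ((a.1.1 i : ℕ) : F))]
      apply Finset.sum_congr rfl
      intro d _
      by_cases h : ∀ i, σ i = false → d.1 i = 0
      · rw [dif_pos h, dif_pos h]
      · rw [dif_neg h, dif_neg h, zero_mul]
    rw [h4]
    have h5 : ∑ a : A, l a * ((((m i * a.1.1 i : ℕ) : ℤ)) : F) =
        (m i : F) * ∑ a : A, l a * ((a.1.1 i : ℕ) : F) := by
      rw [Finset.mul_sum]
      apply Finset.sum_congr rfl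
      intro a _
      rw [hvm]
      ring
    rw [h5] at h3
    exact (mul_eq_zero.1 h3).resolve_left h2

/-- hypersurfaces with coplanar exponents -/
theorem ug_coplanar (hM : KClass k Adm M) (hadm : ∀ d, d ≠ 0 → Adm d) {V : Type} [Fintype V]
    (f : MvPolynomial V k)
    (hf : Coplanar (fun (d : f.support) (i : V) => ((d.1 i : ℕ) : ℚ))) :
    UG Adm M {f} := by
  classical
  apply ug_of_lsum hM
  intro σ m hm _ ⟨a0⟩
  let A := {d : f.support // ∀ i, σ i = false → d.1 i = 0}
  have hv : ∀ (a : A) i, σ i = false → ((m i * a.1.1 i : ℕ) : ℤ) = 0 := by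
    intro d i hi
    simp [d.2 i hi]
  have hm0 : ∀ i, m i ≠ 0 := fun i => hM.adm_ne _ (hm i)
  have hinj : Function.Injective (fun (d : A) i => ((m i * d.1.1 i : ℕ) : ℤ)) := by
    intro d d' hdd
    apply Subtype.ext
    apply Subtype.ext
    ext i
    have h1 : ((m i * d.1.1 i : ℕ) : ℤ) = ((m i * d'.1.1 i : ℕ) : ℤ) := congrFun hdd i
    exact Nat.eq_of_mul_eq_mul_left (Nat.pos_of_ne_zero (hm0 i)) (Int.ofNat_inj.1 h1)
  obtain ⟨x, y, hxy⟩ := hf
  apply few_torus_planar hM hadm σ _ (fun d => MvPolynomial.mem_support_iff.1 d.1.2) _ a0 hv hinj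
  refine ⟨fun i => m i * x i, fun i => m i * y i, fun a a' => ?_⟩
  obtain ⟨α, β, h1⟩ := hxy a.1 a'.1
  refine ⟨α, β, fun i => ?_⟩
  have hvm : ∀ (d : A) i, ((((m i * d.1.1 i : ℕ) : ℤ)) : ℚ) = (m i : ℚ) * ((d.1.1 i : ℕ) : ℚ) := by
    intro d i
    push_cast
    rfl
  change ((((m i * a.1.1 i : ℕ) : ℤ)) : ℚ) - ((((m i * a'.1.1 i : ℕ) : ℤ)) : ℚ) = _
  rw [hvm, hvm, ← mul_sub, h1 i]
  ring

/-- substitution of monomials with exponents independent over `F` -/
theorem ug_mono_indep (hM : KClass k Adm M) (F : Type) [Field F]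
    (hadm : ∀ d : ℕ, (d : F) ≠ 0 → Adm d) {J V : Type} [Fintype J] [Fintype V]
    (b : J → V → ℕ) (hb : LinearIndependent F (fun j i => ((b j i : ℕ) : F)))
    {S : Set (MvPolynomial J k)} (hS : UG Adm M S) :
    UG Adm M ((MvPolynomial.aeval (fun j => ∏ v, MvPolynomial.X v ^ b j v) :
      MvPolynomial J k →ₐ[k] MvPolynomial V k) '' S) := by
  classical
  have hb' : LinearIndependent F (fun j i => (((b j i : ℕ) : ℤ) : F)) := by
    convert hb using 3
    push_cast
    rfl
  obtain ⟨e, L, he, hL⟩ := exists_dual_nat (fun j i => ((b j i : ℕ) : ℤ)) hb'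
  exact ug_mono hM b (hadm e he) hL (fun L _ c => diagData L c) hS

end Pool.Agent.Helper62.RO
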