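import Pool.Agent.Helper62.RO.Mono

/-!
# Linear equations and monomials on tori
-/

namespace Pool.Agent.Helper62.RO

open TensorProduct
open Pool.Agent.Helper62.TS

variable {k : Type} [Field k] {Adm : ℕ → Prop} {M : Cls k}

/-- coordinates of a torus taken from another torus -/
def TorHom.sel {Λ' Λ : Type} (f : Λ → Option Λ') : TorHom Λ' Λ where
  φ W _ u := fun l => (f l).elim 1 u
  nat W V _ _ g u := by
    funext l
    cases f l
    · simp
    · simp
  inv W _ u := by
    funext l
    cases h : f l
    · simp [h]
    · simp [h]

theorem ug_linear (hM : KClass k Adm M) {J : Type} [Fintype J] (c0 : k) (c : J → k) :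
    UG Adm M {MvPolynomial.C c0 + ∑ j, MvPolynomial.C (c j) * MvPolynomial.X j} := by
  classical
  intro E p z m hE hm ⟨a0⟩ hε
  obtain ⟨a⟩ := a0.uniform
  set N := ∏ l, m l with hN
  have hNA : Adm N := hM.adm_prod _ m hm
  -- partial sums
  set y : Finset J → Crd E := fun s =>
    Crd.poly z (∑ j ∈ s, MvPolynomial.C (c j) * MvPolynomial.X j) with hy
  have hyv : ∀ (s : Finset J) (W : Type) [CommRing W] [Algebra k W] (x : E.obj W),
      (y s).val W x = ∑ j ∈ s, algebraMap k W (c j) * (z j).val W x := by
    intro s W _ _ x
    change MvPolynomial.aeval _ (∑ j ∈ s, MvPolynomial.C (c j) * MvPolynomial.X j) = _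
    rw [map_sum]
    apply Finset.sum_congr rfl
    intro j _
    rw [map_mul, MvPolynomial.aeval_C, MvPolynomial.aeval_X]
  have hft : ∀ (s : Finset J) (ε : J → Bool) , Good (Ft k) E (fun W _ _ x => p W x ∧
      (∀ j ∉ s, (z j).val W x = bt W (ε j))) := by
    intro s ε
    refine (hE.ft_eqs (fun j : {j // j ∉ s} => z j.1) (fun j => Crd.bt E (ε j.1))).congr
      (fun W _ _ x => ?_)
    constructor
    · rintro ⟨h1, h2⟩
      exact ⟨h1, fun j hj => h2 ⟨j, hj⟩⟩
    · rintro ⟨h1, h2⟩
      exact ⟨h1, fun j => h2 j.1 j.2⟩
  have key : ∀ (s : Finset J) (c0 : k) (ε : J → Bool), Good M E (fun W _ _ x => p W x ∧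
      (∀ j ∉ s, (z j).val W x = bt W (ε j)) ∧ algebraMap k W c0 + (y s).val W x = 0) := by
    intro s
    induction s using Finset.induction_on with
    | empty =>
      intro c0 ε
      by_cases hc : c0 = 0
      · refine (hε ε).congr (fun W _ _ x => ?_)
        rw [hyv, hc]
        simp
      · have h1 : Good (Ft k) E (fun W _ _ x => p W x ∧
            (∀ j ∉ (∅ : Finset J), (z j).val W x = bt W (ε j)) ∧
            algebraMap k W c0 + (y ∅).val W x = 0) := by
          refine ((hft ∅ ε).ft_cls1 (Crd.const E c0)).congr (fun W _ _ x => ?_)
          rw [hyv, Finset.sum_empty, add_zero]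
          exact and_assoc
        apply h1.empty hM
        rintro W _ _ x ⟨-, -, h2⟩
        rw [hyv, Finset.sum_empty, add_zero] at h2
        have h3 : IsUnit (algebraMap k W c0) := (IsUnit.mk0 c0 hc).map _
        rw [h2] at h3
        exact subsingleton_of_zero_eq_one (isUnit_zero_iff.1 h3)
    | insert l s hl ih =>
      intro c0 ε
      set p1 : Pr E := fun W _ _ x => p W x ∧
        (∀ j ∉ insert l s, (z j).val W x = bt W (ε j)) with hp1
      have hE1 : Good (Ft k) E p1 := hft _ ε
      let sel : J → Option (Fin 2) := fun j =>
        if j = l then some 0 else if j ∈ s then some 1 else none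
      have hz : ∀ (W : Type) [CommRing W] [Algebra k W] (u : Fin 2 → Wˣ) (x : E.obj W),
          p W x → ∀ j, (z j).val W (a.act W ((TorHom.sel sel).φ W u) x) =
            ((((sel j).elim 1 u) ^ N : Wˣ) : W) * (z j).val W x :=
        fun W _ _ u x hx j => a.eq W _ x hx j
      have hact : Nonempty (Act E p1 ![z l, y s] (fun _ => N)) := by
        refine ⟨a.gen (TorHom.sel sel) p1 _ _ (fun W _ _ x h => h.1) ?_ ?_⟩
        · rintro W _ _ u x ⟨h1, h2⟩
          refine ⟨a.pres W _ x h1, fun j hj => ?_⟩
          rw [hz W u x h1]
          have h3 : sel j = none := by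
            have h4 : j ≠ l := fun h => hj (h ▸ Finset.mem_insert_self _ _)
            have h5 : j ∉ s := fun h => hj (Finset.mem_insert_of_mem h)
            simp [sel, h4, h5]
          rw [h3]
          simp only [Option.elim_none, one_pow, Units.val_one, one_mul]
          exact h2 j hj
        · rintro W _ _ u x ⟨h1, h2⟩ i
          match i with
          | 0 =>
            change (z l).val W (a.act W _ x) = ((u 0 ^ N : Wˣ) : W) * (z l).val W x
            rw [hz W u x h1]
            simp [sel]
          | 1 =>
            change (y s).val W (a.act W _ x) = ((u 1 ^ N : Wˣ) : W) * (y s).val W x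
            rw [hyv, hyv, Finset.mul_sum]
            apply Finset.sum_congr rfl
            intro j hj
            rw [hz W u x h1]
            have h4 : j ≠ l := by
              rintro rfl
              exact hl hj
            simp only [sel, h4, hj, if_true, if_false, Option.elim_some]
            ring
      set h : MvPolynomial (Fin 2) k := MvPolynomial.C c0 +
        MvPolynomial.C (c l) * MvPolynomial.X 0 + MvPolynomial.X 1 with hh
      have hh0 : h ≠ 0 := by
        intro h0
        have h1 := congrArg (MvPolynomial.eval ![(0 : k), 1 - c0]) h0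
        have h2 := congrArg (MvPolynomial.eval ![(0 : k), - c0]) h0
        simp [hh] at h1
      have h1 := ug_curve hM (dim_plane_curve_le hh0) E p1 _ _ hE1 (fun _ => hNA) hact (fun δ => by
        refine (ih (-(bt k (δ 1))) (Function.update ε l (δ 0))).congr (fun W _ _ x => ?_)
        have h2 : algebraMap k W (-(bt k (δ 1))) + (y s).val W x = 0 ↔
            (y s).val W x = bt W (δ 1) := by
          have h3 : algebraMap k W (bt k (δ 1)) = bt W (δ 1) :=
            map_bt (Algebra.ofId k W) (δ 1)
          rw [map_neg, h3, neg_add_eq_zero]
          exact eq_comm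
        rw [h2]
        constructor
        · rintro ⟨h3, h4, h5⟩
          refine ⟨⟨h3, fun j hj => ?_⟩, ?_⟩
          · have h6 : j ≠ l := fun h => hj (h ▸ Finset.mem_insert_self _ _)
            have h7 := h4 j (fun h => hj (Finset.mem_insert_of_mem h))
            rwa [Function.update_of_ne h6] at h7
          · intro i
            match i with
            | 0 =>
              have h7 := h4 l hl
              rwa [Function.update_self] at h7
            | 1 => exact h5
        · rintro ⟨⟨h3, h4⟩, h5⟩
          refine ⟨h3, fun j hj => ?_, h5 1⟩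
          by_cases h6 : j = l
          · subst h6
            rw [Function.update_self]
            exact h5 0
          · rw [Function.update_of_ne h6]
            exact h4 j (fun h => (Finset.mem_insert.1 h).elim h6 hj))
      refine h1.congr (fun W _ _ x => ?_)
      have h2 : VS {h} W (fun i => ((![z l, y s] : Fin 2 → Crd E) i).val W x) ↔
          algebraMap k W c0 + (y (insert l s)).val W x = 0 := by
        have h3 : (y (insert l s)).val W x =
            algebraMap k W (c l) * (z l).val W x + (y s).val W x := by
          rw [hyv, hyv, Finset.sum_insert hl]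
        rw [h3]
        change (∀ f ∈ ({h} : Set _), _) ↔ _
        simp only [Set.mem_singleton_iff, forall_eq]
        rw [hh]
        simp only [map_add, map_mul, MvPolynomial.aeval_C, MvPolynomial.aeval_X]
        change algebraMap k W c0 + algebraMap k W (c l) * (z l).val W x + (y s).val W x = 0 ↔ _
        rw [add_assoc]
      rw [h2]
      exact and_assoc
  refine (key Finset.univ c0 (fun _ => true)).congr (fun W _ _ x => ?_)
  have h2 : VS {MvPolynomial.C c0 + ∑ j, MvPolynomial.C (c j) * MvPolynomial.X j} W
      (fun i => (z i).val W x) ↔ algebraMap k W c0 + (y Finset.univ).val W x = 0 := by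
    change (∀ f ∈ ({_} : Set _), _) ↔ _
    simp only [Set.mem_singleton_iff, forall_eq]
    rw [map_add, MvPolynomial.aeval_C]
    rfl
  rw [h2]
  simp

end Pool.Agent.Helper62.RO
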