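import Pool.Agent.Helper62.RO.Diag

/-!
# Substitution of independent monomials
-/

namespace Pool.Agent.Helper62.RO

open TensorProduct
open Pool.Agent.Helper62.TS

variable {k : Type} [Field k] {Adm : ℕ → Prop} {M : Cls k}

/-- integer cocharacters dual to the exponents `b`, up to the factor `e` -/
def Dual {J V : Type} [DecidableEq J] [Fintype V] (b : J → V → ℤ) (e : ℕ) (L : J → V → ℤ) : Prop :=
  ∀ i j, ∑ v, L i v * b j v = if i = j then (e : ℤ) else 0

/-- monomial homomorphisms of tori -/
def TorHom.mono {J V : Type} [Fintype J] (L : J → V → ℤ) : TorHom J V where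
  φ W _ u := fun v => ∏ j, u j ^ L j v
  nat W V _ _ f u := by
    funext v
    rw [map_prod]
    simp_rw [map_zpow]
  inv W _ u := by
    funext v
    simp

theorem prod_zpow_sum {V : Type} {G : Type} [CommGroup G] (g : G) (n : V → ℤ) (s : Finset V) :
    ∏ v ∈ s, g ^ n v = g ^ ∑ v ∈ s, n v := by
  classical
  induction s using Finset.induction_on with
  | empty => simp
  | insert a s ha ih => rw [Finset.prod_insert ha, Finset.sum_insert ha, zpow_add, ih]

theorem dual_prod {J V : Type} [DecidableEq J] [Fintype J] [Fintype V] {b : J → V → ℤ} {e : ℕ}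
    {L : J → V → ℤ} (h : Dual b e L) {G : Type} [CommGroup G] (u : J → G) (N : ℕ) (j : J) :
    ∏ v, ((∏ j', u j' ^ L j' v) ^ N) ^ b j v = u j ^ (N * e) := by
  have h1 : ∀ v, ((∏ j', u j' ^ L j' v) ^ N) ^ b j v =
      ∏ j', u j' ^ ((N : ℤ) * (L j' v * b j v)) := by
    intro v
    rw [← zpow_natCast, ← zpow_mul, ← Finset.prod_zpow]
    apply Finset.prod_congr rfl
    intro j' _
    rw [← zpow_mul]
    congr 1
    ring
  simp_rw [h1]
  rw [Finset.prod_comm]
  have h2 : ∀ (j' : J), ∏ v, u j' ^ ((N : ℤ) * (L j' v * b j v)) =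
      u j' ^ ((N : ℤ) * ∑ v, L j' v * b j v) := by
    intro j'
    rw [Finset.mul_sum]
    exact prod_zpow_sum _ _ _
  simp_rw [h2, h _ j]
  rw [Finset.prod_eq_single j]
  · rw [if_pos rfl, ← Nat.cast_mul, zpow_natCast]
  · intro j' _ hne
    rw [if_neg hne, mul_zero, zpow_zero]
  · intro h3
    exact absurd (Finset.mem_univ j) h3

/-- the systems `∏ x_v ^ (b j v) = ε j` on affine space -/
theorem good_monomial_fibres (hM : KClass k Adm M) {J V : Type} [Finite J] [Fintype V]
    (b : J → V → ℕ) (hdiag : ∀ (L : Type) [Finite L] (c : L → V → ℤ), DiagData c)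
    {E : Fun k} {p : Pr E} {z : V → Crd E} {m : V → ℕ} (hE : Good (Ft k) E p)
    (hm : ∀ i, Adm (m i)) (a : Act E p z m)
    (hε : ∀ ε : V → Bool, Good M E (fun W _ _ x => p W x ∧ ∀ l, (z l).val W x = bt W (ε l)))
    (ε : J → Bool) :
    Good M E (fun W _ _ x => p W x ∧ ∀ j, ∏ v, (z v).val W x ^ b j v = bt W (ε j)) := by
  classical
  refine good_of_strata hM hm a hε (fun W _ _ y => ∀ j, ∏ v, y v ^ b j v = bt W (ε j)) ?_ ?_
  · refine (hE.ft_eqs (fun j => Crd.poly z (∏ v, MvPolynomial.X v ^ b j v))
      (fun j => Crd.bt E (ε j))).congr (fun W _ _ x => ?_)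
    have h1 : ∀ j, (Crd.poly z (∏ v, MvPolynomial.X v ^ b j v)).val W x =
        ∏ v, (z v).val W x ^ b j v := by
      intro j
      change MvPolynomial.aeval _ (∏ v, MvPolynomial.X v ^ b j v) = _
      rw [map_prod]
      simp_rw [map_pow, MvPolynomial.aeval_X]
    simp_rw [h1]
    rfl
  · intro σ
    -- the value of the monomial `j` on the stratum
    have hval : ∀ (W : Type) [CommRing W] (s : V → Wˣ) (j : J),
        (∏ v, (if σ v then ((s v ^ m v : Wˣ) : W) else 0) ^ b j v) =
          if (∀ v, σ v = false → b j v = 0) then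
            ((∏ v, (if σ v then s v else 1) ^ ((m v * b j v : ℕ) : ℤ) : Wˣ) : W) else 0 := by
      intro W _ s j
      by_cases h : ∀ v, σ v = false → b j v = 0
      · rw [if_pos h, Units.coe_prod]
        apply Finset.prod_congr rfl
        intro v _
        cases hσ : σ v
        · rw [h v hσ]
          simp
        · simp only [if_true]
          rw [zpow_natCast, pow_mul, Units.val_pow_eq_pow_val (s v ^ m v)]
      · rw [if_neg h]
        push Not at h
        obtain ⟨v, h1, h2⟩ := h
        apply Finset.prod_eq_zero (Finset.mem_univ v)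
        rw [h1]
        simp [h2]
    by_cases hcase : ∀ j, ε j = true ↔ ∀ v, σ v = false → b j v = 0
    · -- a diagonalizable group
      let c : V ⊕ {j // ε j = true} → V → ℤ := Sum.elim
        (fun v v' => if v = v' ∧ σ v = false then 1 else 0)
        (fun j v => ((m v * b j.1 v : ℕ) : ℤ))
      refine (good_diag hM (hdiag _ c)).congr (fun W _ _ s => ?_)
      have hc1 : ∀ v, ∏ v', s v' ^ c (Sum.inl v) v' = if σ v = false then s v else 1 := by
        intro v
        rw [Finset.prod_eq_single v]
        · change s v ^ (if v = v ∧ σ v = false then (1 : ℤ) else 0) = _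
          by_cases h : σ v = false
          · simp [h]
          · simp [h]
        · intro v' _ hne
          change s v' ^ (if v = v' ∧ σ v = false then (1 : ℤ) else 0) = 1
          rw [if_neg (fun h => hne h.1.symm), zpow_zero]
        · intro h
          exact absurd (Finset.mem_univ v) h
      have hc2 : ∀ j : {j // ε j = true}, (∀ v, σ v = false → s v = 1) →
          ∏ v, (if σ v then s v else 1) ^ ((m v * b j.1 v : ℕ) : ℤ) =
            ∏ v', s v' ^ c (Sum.inr j) v' := by
        intro j hs
        apply Finset.prod_congr rfl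
        intro v _
        cases hσ : σ v
        · rw [hs v hσ]
          simp
        · rfl
      constructor
      · intro h1
        have h2 : ∀ v, σ v = false → s v = 1 := by
          intro v hv
          have := h1 (Sum.inl v)
          rwa [hc1, if_pos hv] at this
        refine ⟨h2, fun j => ?_⟩
        rw [hval]
        by_cases hj : ε j = true
        · rw [if_pos ((hcase j).1 hj), hc2 ⟨j, hj⟩ h2, h1 (Sum.inr ⟨j, hj⟩), hj]
          simp
        · rw [if_neg (fun h => hj ((hcase j).2 h))]
          simp only [Bool.not_eq_true] at hj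
          rw [hj]
          simp
      · rintro ⟨h2, h3⟩ l
        cases l with
        | inl v =>
          rw [hc1]
          by_cases hv : σ v = false
          · rw [if_pos hv, h2 v hv]
          · rw [if_neg hv]
        | inr j =>
          have h4 := h3 j.1
          rw [hval, if_pos ((hcase j.1).1 j.2), hc2 j h2, j.2] at h4
          ext
          exact h4
    · -- empty
      push Not at hcase
      obtain ⟨j, hj⟩ := hcase
      have hft : Good (Ft k) (Tor V) (fun W _ _ s => (∀ i, σ i = false → s i = 1) ∧
          ∀ j, ∏ v, (if σ v then ((s v ^ m v : Wˣ) : W) else 0) ^ b j v = bt W (ε j)) := by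
        have h1 : Good (Ft k) (Aff V) (fun W _ _ x => True ∧ ∀ i ∈ Finset.univ,
            cond (crd i) true W x) := good_ft_conds (good_ft_aff V) crd (fun _ => true) Finset.univ
        have h2 := (h1.ft_eqs (fun i : {i // σ i = false} => crd i.1) (fun _ => Crd.bt _ true))
        have h3 := h2.ft_eqs (fun j => Crd.poly crd (∏ v, (if σ v then MvPolynomial.X v ^ m v
          else 0) ^ b j v)) (fun j => Crd.bt _ (ε j))
        apply good_tor
        refine h3.congr (fun W _ _ x => ?_)
        have h4 : ∀ j, (Crd.poly crd (∏ v, (if σ v then MvPolynomial.X v ^ m v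
            else 0) ^ b j v) : Crd (Aff V)).val W x = ∏ v, (if σ v then x v ^ m v
            else 0) ^ b j v := by
          intro j
          change MvPolynomial.aeval _ (∏ v, (if σ v then MvPolynomial.X v ^ m v
            else 0) ^ b j v) = _
          rw [map_prod]
          apply Finset.prod_congr rfl
          intro v _
          rw [map_pow]
          congr 1
          cases σ v
          · simp
          · simp [crd]
        simp_rw [h4]
        have h5 : ∀ i, IsUnit (x i) → ((toU x i : Wˣ) : W) = x i := fun i h => toU_val h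
        constructor
        · rintro ⟨⟨⟨-, h6⟩, h7⟩, h8⟩
          have h6' : ∀ i, IsUnit (x i) := by
            intro i
            have := h6 i (Finset.mem_univ i)
            simpa [cond, crd] using this
          refine ⟨h6', fun i hi => ?_, fun j => ?_⟩
          · ext
            rw [h5 i (h6' i)]
            exact h7 ⟨i, hi⟩
          · rw [← (show (Crd.bt (Aff V) (ε j)).val W x = bt W (ε j) from rfl), ← h8 j]
            apply Finset.prod_congr rfl
            intro v _
            rw [Units.val_pow_eq_pow_val, h5 v (h6' v)]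
        · rintro ⟨h6, h7, h8⟩
          refine ⟨⟨⟨trivial, fun i _ => ?_⟩, fun i => ?_⟩, fun j => ?_⟩
          · simpa [cond, crd] using h6 i
          · have := h7 i.1 i.2
            change x i.1 = 1
            rw [← h5 i.1 (h6 i.1), this, Units.val_one]
          · rw [show (Crd.bt (Aff V) (ε j)).val W x = bt W (ε j) from rfl, ← h8 j]
            apply Finset.prod_congr rfl
            intro v _
            rw [Units.val_pow_eq_pow_val, h5 v (h6 v)]
      apply hft.empty hM
      rintro W _ _ s ⟨h2, h3⟩
      have h4 := h3 j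
      rw [hval] at h4
      rcases hj with ⟨h5, h6⟩ | ⟨h5, h6⟩
      · obtain ⟨v, hv1, hv2⟩ := h6
        rw [if_neg (fun h => hv2 (h v hv1)), h5] at h4
        exact subsingleton_of_zero_eq_one h4
      · rw [if_pos h6] at h4
        simp only [ne_eq, Bool.not_eq_true] at h5
        rw [h5] at h4
        have h7 : IsUnit (0 : W) := by
          have : IsUnit (bt W false) := by
            rw [← h4]
            exact Units.isUnit _
          exact this
        exact subsingleton_of_zero_eq_one (isUnit_zero_iff.1 h7)

/-- substitution of independent monomials -/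
theorem ug_mono (hM : KClass k Adm M) {J V : Type} [Fintype J] [DecidableEq J] [Fintype V]
    (b : J → V → ℕ) {e : ℕ} {L : J → V → ℤ} (he : Adm e)
    (hL : Dual (fun j v => (b j v : ℤ)) e L)
    (hdiag : ∀ (L : Type) [Finite L] (c : L → V → ℤ), DiagData c)
    {S : Set (MvPolynomial J k)} (hS : UG Adm M S) :
    UG Adm M ((MvPolynomial.aeval (fun j => ∏ v, MvPolynomial.X v ^ b j v) :
      MvPolynomial J k →ₐ[k] MvPolynomial V k) '' S) := by
  classical
  intro E p z m hE hm ⟨a0⟩ hε
  obtain ⟨a⟩ := a0.uniform
  set N := ∏ l, m l with hN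
  have hNA : Adm N := hM.adm_prod _ m hm
  set t : J → Crd E := fun j => Crd.poly z (∏ v, MvPolynomial.X v ^ b j v) with ht
  have htv : ∀ (W : Type) [CommRing W] [Algebra k W] (x : E.obj W) (j : J),
      (t j).val W x = ∏ v, (z v).val W x ^ b j v := by
    intro W _ _ x j
    change MvPolynomial.aeval _ (∏ v, MvPolynomial.X v ^ b j v) = _
    rw [map_prod]
    simp_rw [map_pow, MvPolynomial.aeval_X]
  have hact : Nonempty (Act E p t (fun _ => N * e)) := by
    refine ⟨a.gen (TorHom.mono L) p t _ (fun W _ _ x h => h)
      (fun W _ _ u x h => a.pres W _ x h) ?_⟩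
    intro W _ _ u x hx j
    rw [htv, htv]
    have h1 : ∀ v, (z v).val W (a.act W ((TorHom.mono L).φ W u) x) ^ b j v =
        (((((∏ j', u j' ^ L j' v) ^ N) ^ ((b j v : ℕ) : ℤ)) : Wˣ) : W) *
          (z v).val W x ^ b j v := by
      intro v
      rw [a.eq W _ x hx, mul_pow, zpow_natCast, Units.val_pow_eq_pow_val]
      rfl
    simp_rw [h1]
    rw [Finset.prod_mul_distrib, ← Units.coe_prod, dual_prod hL u N j]
  have h2 := hS E p t _ hE (fun j => hM.adm_mul _ _ hNA he) hact (fun ε => by
    refine (good_monomial_fibres hM b hdiag hE hm a0 hε ε).congr (fun W _ _ x => ?_)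
    simp_rw [htv])
  refine h2.congr (fun W _ _ x => ?_)
  have h3 : ∀ f : MvPolynomial J k, MvPolynomial.aeval (fun l => (z l).val W x)
      (MvPolynomial.aeval (fun j => ∏ v, MvPolynomial.X v ^ b j v) f :
        MvPolynomial V k) = MvPolynomial.aeval (fun j => (t j).val W x) f := by
    intro f
    rw [← AlgHom.comp_apply, MvPolynomial.comp_aeval]
    rfl
  constructor
  · rintro ⟨h4, h5⟩
    refine ⟨h4, ?_⟩
    rintro _ ⟨f, hf, rfl⟩
    rw [h3]
    exact h5 f hf
  · rintro ⟨h4, h5⟩
    refine ⟨h4, ?_⟩
    intro f hf
    have := h5 _ ⟨f, hf, rfl⟩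
    rwa [h3] at this

end Pool.Agent.Helper62.RO
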