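import Pool.Agent.Helper62.RO.Univ

/-!
# Strata and simultaneous Kummer covers
-/

namespace Pool.Agent.Helper62.RO

open TensorProduct
open Pool.Agent.Helper62.TS

variable {k : Type} [Field k] {Adm : ℕ → Prop} {M : Cls k}

/-- simultaneous Kummer covers -/
theorem good_kumfin (hM : KClass k Adm M) {E : Fun k} {p : Pr E} (hE : Good (Ft k) E p)
    {ι : Type} [Finite ι] (u : ι → Crd E) (d : ι → ℕ) (hd : ∀ i, Adm (d i))
    (hu : ∀ (W : Type) [CommRing W] [Algebra k W] (x : E.obj W), p W x →
      ∀ i, IsUnit ((u i).val W x))
    (h : Good M (E.prod (Aff ι)) (fun W _ _ x => p W x.1 ∧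
      ∀ i, x.2 i ^ d i = (u i).val W x.1)) : Good M E p := by
  classical
  have := Fintype.ofFinite ι
  suffices H : ∀ s : Finset ι, Good M (E.prod (Aff ι)) (fun W _ _ x => p W x.1 ∧
      (∀ i ∈ s, x.2 i ^ d i = (u i).val W x.1) ∧ ∀ i ∉ s, x.2 i = 1) → Good M E p by
    exact H Finset.univ (h.congr (fun W _ _ x => by simp))
  intro s
  induction s using Finset.induction_on with
  | empty =>
    intro h
    refine h.iso (E' := E) (fun W _ _ (x : (E.prod (Aff ι)).obj W) => x.1)
      (fun W _ _ (x : E.obj W) => (x, fun _ => 1)) ?_ ?_ ?_ (fun _ _ _ _ _ => rfl)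
      (fun _ _ _ _ _ _ _ _ _ => rfl)
    · rintro W _ _ x ⟨h1, -, -⟩
      exact h1
    · intro W _ _ x h1
      exact ⟨h1, by simp, by simp⟩
    · rintro W _ _ x ⟨h1, -, h2⟩
      refine Prod.ext rfl ?_
      funext i
      exact (h2 i (by simp)).symm
  | insert a s ha ih =>
    intro h
    apply ih
    have hft : Good (Ft k) (E.prod (Aff ι)) (fun W _ _ x => p W x.1 ∧
        (∀ i ∈ s, x.2 i ^ d i = (u i).val W x.1) ∧ ∀ i ∉ s, x.2 i = 1) := by
      have h1 := (hE.ft_prod (good_ft_aff ι)).ft_eqs
        (fun i : s => Crd.poly (fun j => (crd j).snd E) (MvPolynomial.X i.1 ^ d i.1))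
        (fun i : s => (u i.1).fst (Aff ι))
      have h2 := h1.ft_eqs (fun i : {i // i ∉ s} => (crd i.1).snd E)
        (fun i => Crd.bt _ true)
      refine h2.congr (fun W _ _ x => ?_)
      have h3 : ∀ i : s, (Crd.poly (fun j => (crd j).snd E) (MvPolynomial.X i.1 ^ d i.1) :
          Crd (E.prod (Aff ι))).val W x = x.2 i.1 ^ d i.1 := by
        intro i
        change MvPolynomial.aeval _ (MvPolynomial.X i.1 ^ d i.1) = _
        rw [map_pow, MvPolynomial.aeval_X]
        rfl
      constructor
      · rintro ⟨⟨⟨h4, -⟩, h5⟩, h6⟩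
        refine ⟨h4, fun i hi => ?_, fun i hi => h6 ⟨i, hi⟩⟩
        have := h5 ⟨i, hi⟩
        rw [h3] at this
        exact this
      · rintro ⟨h4, h5, h6⟩
        refine ⟨⟨⟨h4, trivial⟩, fun i => ?_⟩, fun i => h6 i.1 i.2⟩
        rw [h3]
        exact h5 i.1 i.2
    apply hft.kummer hM ((u a).fst (Aff ι)) (d a) (hd a) (fun W _ _ x hx => hu W x.1 hx.1 a)
    refine h.iso (E' := (E.prod (Aff ι)).prod line)
      (fun W _ _ (x : (E.prod (Aff ι)).obj W) => ((x.1, Function.update x.2 a 1), x.2 a))
      (fun W _ _ (x : ((E.prod (Aff ι)).prod line).obj W) =>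
        (x.1.1, Function.update x.1.2 a x.2)) ?_ ?_ ?_ ?_ ?_
    · rintro W _ _ ⟨x, y⟩ ⟨h1, h2, h3⟩
      refine ⟨⟨h1, ?_, ?_⟩, ?_⟩
      · intro i hi
        have hne : i ≠ a := by
          rintro rfl
          exact ha hi
        change (Function.update y a 1 i) ^ d i = _
        rw [Function.update_of_ne hne]
        exact h2 i (Finset.mem_insert_of_mem hi)
      · intro i hi
        change Function.update y a 1 i = 1
        by_cases hne : i = a
        · subst hne
          rw [Function.update_self]
        · rw [Function.update_of_ne hne]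
          exact h3 i (fun h4 => (Finset.mem_insert.1 h4).elim hne hi)
      · exact h2 a (Finset.mem_insert_self _ _)
    · rintro W _ _ ⟨⟨x, y⟩, v⟩ ⟨⟨h1, h2, h3⟩, h4⟩
      refine ⟨h1, ?_, ?_⟩
      · intro i hi
        change (Function.update y a v i) ^ d i = _
        rcases Finset.mem_insert.1 hi with rfl | hi
        · rw [Function.update_self]
          exact h4
        · have hne : i ≠ a := by
            intro h6
            rw [h6] at hi
            exact ha hi
          rw [Function.update_of_ne hne]
          exact h2 i hi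
      · intro i hi
        change Function.update y a v i = 1
        have hne : i ≠ a := by
          intro h6
          rw [h6] at hi
          exact hi (Finset.mem_insert_self _ _)
        rw [Function.update_of_ne hne]
        exact h3 i (fun h4 => hi (Finset.mem_insert_of_mem h4))
    · rintro W _ _ ⟨x, y⟩ ⟨h1, h2, h3⟩
      refine Prod.ext rfl ?_
      change Function.update (Function.update y a 1) a (y a) = y
      rw [Function.update_idem, Function.update_eq_self]
    · rintro W _ _ ⟨⟨x, y⟩, v⟩ ⟨⟨h1, h2, h3⟩, h4⟩
      have h5 : y a = 1 := h3 a ha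
      refine Prod.ext (Prod.ext rfl ?_) ?_
      · change Function.update (Function.update y a v) a 1 = y
        rw [Function.update_idem, ← h5, Function.update_eq_self]
      · change Function.update y a v a = v
        rw [Function.update_self]
    · rintro W V _ _ _ _ f ⟨x, y⟩ -
      refine Prod.ext (Prod.ext rfl ?_) rfl
      funext i
      change f (Function.update y a 1 i) = Function.update (fun i => f (y i)) a 1 i
      by_cases hne : i = a
      · subst hne
        rw [Function.update_self, Function.update_self, map_one]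
      · rw [Function.update_of_ne hne, Function.update_of_ne hne]

/-- the condition defining strata -/
def cond {E : Fun k} (z : Crd E) (b : Bool) : Pr E := fun W _ _ x =>
  if b then IsUnit (z.val W x) else z.val W x = 0

theorem good_ft_cond {E : Fun k} {p : Pr E} (hE : Good (Ft k) E p) (z : Crd E) (b : Bool) :
    Good (Ft k) E (fun W _ _ x => p W x ∧ cond z b W x) := by
  cases b
  · exact (hE.ft_cls1 z).congr (fun W _ _ x => by simp [cond])
  · exact (hE.ft_opn z).congr (fun W _ _ x => by simp [cond])

theorem good_ft_conds {E : Fun k} {p : Pr E} (hE : Good (Ft k) E p) {ι : Type}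
    (z : ι → Crd E) (σ : ι → Bool) (s : Finset ι) :
    Good (Ft k) E (fun W _ _ x => p W x ∧ ∀ i ∈ s, cond (z i) (σ i) W x) := by
  classical
  induction s using Finset.induction_on with
  | empty => exact hE.congr (fun W _ _ x => by simp)
  | insert a s ha ih =>
    refine (good_ft_cond ih (z a) (σ a)).congr (fun W _ _ x => ?_)
    rw [Finset.forall_mem_insert]
    tauto

/-- gluing strata -/
theorem good_strata (hM : KClass k Adm M) {E : Fun k} {p : Pr E} (hE : Good (Ft k) E p)
    {ι : Type} [Finite ι] (z : ι → Crd E)
    (h : ∀ σ : ι → Bool, Good M E (fun W _ _ x => p W x ∧ ∀ i, cond (z i) (σ i) W x)) :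
    Good M E p := by
  classical
  have := Fintype.ofFinite ι
  suffices H : ∀ (s : Finset ι) (σ : ι → Bool), Good M E (fun W _ _ x => p W x ∧
      ∀ i ∈ sᶜ, cond (z i) (σ i) W x) by
    exact (H Finset.univ (fun _ => true)).congr (fun W _ _ x => by simp)
  intro s
  induction s using Finset.induction_on with
  | empty => exact fun σ => (h σ).congr (fun W _ _ x => by simp)
  | insert a s ha ih =>
    intro σ
    have h1 : ∀ b : Bool, Good M E (fun W _ _ x => (p W x ∧
        ∀ i ∈ (insert a s)ᶜ, cond (z i) (σ i) W x) ∧ cond (z a) b W x) := by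
      intro b
      refine (ih (Function.update σ a b)).congr (fun W _ _ x => ?_)
      constructor
      · rintro ⟨h1, h2⟩
        refine ⟨⟨h1, fun i hi => ?_⟩, ?_⟩
        · have hne : i ≠ a := by
            rintro rfl
            exact (Finset.mem_compl.1 hi) (Finset.mem_insert_self _ _)
          have := h2 i (Finset.mem_compl.2
            (fun h3 => (Finset.mem_compl.1 hi) (Finset.mem_insert_of_mem h3)))
          rwa [Function.update_of_ne hne] at this
        · have := h2 a (Finset.mem_compl.2 ha)
          rwa [Function.update_self] at this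
      · rintro ⟨⟨h1, h2⟩, h3⟩
        refine ⟨h1, fun i hi => ?_⟩
        by_cases hne : i = a
        · subst hne
          rw [Function.update_self]
          exact h3
        · rw [Function.update_of_ne hne]
          exact h2 i (Finset.mem_compl.2 (fun h4 =>
            (Finset.mem_insert.1 h4).elim hne (Finset.mem_compl.1 hi)))
    apply (good_ft_conds hE z σ _).glue hM (z a)
    · exact (h1 false).congr (fun W _ _ x => by simp [cond])
    · exact (h1 true).congr (fun W _ _ x => by simp [cond])

/-- tori -/
@[reducible] def Tor (ι : Type) : Fun k where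
  obj W _ _ := ι → Wˣ
  map f x := fun i => um f (x i)
  id_map _ := rfl
  comp_map _ _ _ := rfl

/-- units -/
noncomputable def toU {ι : Type} {W : Type} [CommRing W] (y : ι → W) : ι → Wˣ :=
  fun i => open Classical in if h : IsUnit (y i) then h.unit else 1

theorem toU_val {ι : Type} {W : Type} [CommRing W] {y : ι → W} {i : ι} (h : IsUnit (y i)) :
    (toU y i : W) = y i := by
  rw [toU, dif_pos h]
  rfl

theorem toU_coe {ι : Type} {W : Type} [CommRing W] (s : ι → Wˣ) :
    toU (fun i => (s i : W)) = s := by
  funext i
  ext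
  exact toU_val (s i).isUnit

theorem good_tor {M : Cls k} {ι : Type} {r : Pr (Tor (k := k) ι)}
    (h : Good M (Aff ι) (fun W _ _ x => (∀ i, IsUnit (x i)) ∧ r W (toU x))) :
    Good M (Tor ι) r := by
  refine h.iso (E' := Tor ι) (fun W _ _ (x : (Aff ι).obj W) => toU x)
    (fun W _ _ (x : (Tor ι).obj W) => fun i => (x i : W)) ?_ ?_ ?_ ?_ ?_
  · rintro W _ _ x ⟨h1, h2⟩
    exact h2
  · rintro W _ _ x h1
    refine ⟨fun i => (x i).isUnit, ?_⟩
    rw [toU_coe]
    exact h1
  · rintro W _ _ x ⟨h1, h2⟩
    funext i
    exact toU_val (h1 i)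
  · rintro W _ _ x h1
    exact toU_coe x
  · rintro W V _ _ _ _ f x ⟨h1, h2⟩
    funext i
    ext
    change f (toU x i) = toU (fun i => f (x i)) i
    rw [toU_val (h1 i), toU_val (y := fun i => f (x i)) ((h1 i).map f)]

/-- reduction of monomially trivial families to tori -/
theorem good_of_strata (hM : KClass k Adm M) {E : Fun k} {p : Pr E} {ι : Type} [Finite ι]
    {z : ι → Crd E} {m : ι → ℕ} (hm : ∀ i, Adm (m i)) (a : Act E p z m)
    (hε : ∀ ε : ι → Bool, Good M E (fun W _ _ x => p W x ∧ ∀ l, (z l).val W x = bt W (ε l)))
    (r : Pr (Aff (k := k) ι))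
    (hr : Good (Ft k) E (fun W _ _ x => p W x ∧ r W (fun i => (z i).val W x)))
    (hT : ∀ σ : ι → Bool, Good M (Tor ι) (fun W _ _ s => (∀ i, σ i = false → s i = 1) ∧
      r W (fun i => if σ i then ((s i ^ m i : Wˣ) : W) else 0))) :
    Good M E (fun W _ _ x => p W x ∧ r W (fun i => (z i).val W x)) := by
  classical
  have := Fintype.ofFinite ι
  apply good_strata hM hr z
  intro σ
  set u : ι → Crd E := fun i => if σ i then z i else Crd.bt E true with hu
  set d : ι → ℕ := fun i => if σ i then m i else 1 with hd
  have hft := good_ft_conds hr z σ Finset.univ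
  have hft2 : Good (Ft k) E (fun W _ _ x => (p W x ∧ r W (fun i => (z i).val W x)) ∧
      ∀ i, cond (z i) (σ i) W x) := hft.congr (fun W _ _ x => by simp)
  have hdA : ∀ i, Adm (d i) := by
    intro i
    by_cases h : σ i = true
    · simp only [hd, h, if_true]
      exact hm i
    · simp only [hd, h]
      exact hM.adm_one
  apply good_kumfin hM hft2 u d hdA
  · rintro W _ _ x ⟨-, h2⟩ i
    have h3 := h2 i
    by_cases h : σ i = true
    · simp only [hu, h, if_true]
      simpa [cond, h] using h3
    · simp only [hu, h]
      exact isUnit_one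
  · refine ((hε σ).prod hM (hT σ)).iso (E' := E.prod (Aff ι))
      (fun W _ _ (x : (E.prod (Tor ι)).obj W) => (a.act W x.2 x.1, fun i => (x.2 i : W)))
      (fun W _ _ (x : (E.prod (Aff ι)).obj W) => (a.act W (toU x.2)⁻¹ x.1, toU x.2))
      ?_ ?_ ?_ ?_ ?_
    · rintro W _ _ ⟨x, s⟩ ⟨⟨h1, h2⟩, h3, h4⟩
      have h5 : ∀ i, (z i).val W (a.act W s x) = if σ i then ((s i ^ m i : Wˣ) : W) else 0 := by
        intro i
        rw [a.eq W s x h1, h2]
        cases h : σ i
        · simp
        · simp
      refine ⟨⟨⟨a.pres W s x h1, ?_⟩, ?_⟩, ?_⟩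
      · have h6 : (fun i => (z i).val W (a.act W s x)) =
            fun i => if σ i then ((s i ^ m i : Wˣ) : W) else 0 := funext h5
        change r W (fun i => (z i).val W (a.act W s x))
        rw [h6]
        exact h4
      · intro i
        change (if σ i = true then IsUnit ((z i).val W (a.act W s x)) else
          (z i).val W (a.act W s x) = 0)
        rw [h5]
        cases h : σ i
        · simp
        · simp only [if_true]
          exact Units.isUnit _
      · intro i
        change ((s i : W)) ^ d i = (u i).val W (a.act W s x)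
        cases h : σ i
        · have h7 : s i = 1 := h3 i h
          simp only [hd, hu, h, Bool.false_eq_true, if_false]
          simp [Crd.bt, h7]
        · simp only [hd, hu, h, if_true]
          rw [h5, h]
          simp
    · rintro W _ _ ⟨x, y⟩ ⟨⟨⟨h1, h2⟩, h3⟩, h4⟩
      have h5 : ∀ i, IsUnit (y i) := by
        intro i
        have h6 : y i ^ d i = (u i).val W x := h4 i
        have h7 : IsUnit ((u i).val W x) := by
          have h8 := h3 i
          by_cases h : σ i = true
          · simp only [hu, h, if_true]
            simpa [cond, h] using h8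
          · simp only [hu, h]
            exact isUnit_one
        rw [← h6] at h7
        exact (isUnit_pow_iff (hM.adm_ne _ (hdA i))).1 h7
      have h6 : ∀ i, σ i = true → (z i).val W x = ((toU y i ^ m i : Wˣ) : W) := by
        intro i hi
        have h7 : y i ^ d i = (u i).val W x := h4 i
        simp only [hd, hu, hi, if_true] at h7
        rw [← h7, Units.val_pow_eq_pow_val, toU_val (h5 i)]
      have h7 : ∀ i, σ i = false → toU y i = 1 := by
        intro i hi
        have h7 : y i ^ d i = (u i).val W x := h4 i
        simp only [hd, hu, hi, Bool.false_eq_true, if_false, pow_one] at h7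
        ext
        rw [toU_val (h5 i), h7]
        simp [Crd.bt]
      have h8 : ∀ i, σ i = false → (z i).val W x = 0 := by
        intro i hi
        have h9 := h3 i
        simpa [cond, hi] using h9
      refine ⟨⟨a.pres W _ x h1, ?_⟩, h7, ?_⟩
      · intro i
        change (z i).val W (a.act W (toU y)⁻¹ x) = _
        rw [a.eq W _ x h1]
        cases h : σ i
        · rw [h8 i h]
          simp
        · rw [h6 i h, ← Units.val_mul, Pi.inv_apply, inv_pow, inv_mul_cancel]
          simp
      · have h9 : (fun i => if σ i then ((toU y i ^ m i : Wˣ) : W) else 0) =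
            fun i => (z i).val W x := by
          funext i
          cases h : σ i
          · rw [h8 i h]
            simp
          · rw [h6 i h]
            simp
        change r W (fun i => if σ i then ((toU y i ^ m i : Wˣ) : W) else 0)
        rw [h9]
        exact h2
    · rintro W _ _ ⟨x, s⟩ ⟨⟨h1, h2⟩, h3, h4⟩
      refine Prod.ext ?_ (toU_coe s)
      change a.act W (toU fun i => (s i : W))⁻¹ (a.act W s x) = x
      rw [toU_coe]
      exact a.inv W s x h1
    · rintro W _ _ ⟨x, y⟩ ⟨⟨⟨h1, h2⟩, h3⟩, h4⟩
      refine Prod.ext ?_ ?_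
      · change a.act W (toU y) (a.act W (toU y)⁻¹ x) = x
        have := a.inv W (toU y)⁻¹ x h1
        rwa [inv_inv] at this
      · funext i
        apply toU_val
        have h6 : y i ^ d i = (u i).val W x := h4 i
        have h7 : IsUnit ((u i).val W x) := by
          have h8 := h3 i
          by_cases h : σ i = true
          · simp only [hu, h, if_true]
            simpa [cond, h] using h8
          · simp only [hu, h]
            exact isUnit_one
        rw [← h6] at h7
        exact (isUnit_pow_iff (hM.adm_ne _ (hdA i))).1 h7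
    · rintro W V _ _ _ _ f ⟨x, s⟩ ⟨⟨h1, h2⟩, h3, h4⟩
      exact Prod.ext (a.nat W V f s x h1) rfl

end Pool.Agent.Helper62.RO
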