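import Pool.Agent.Helper62.RO.Linear

/-!
# Equations in independent Laurent monomials on tori
-/

namespace Pool.Agent.Helper62.RO

open TensorProduct
open Pool.Agent.Helper62.TS

variable {k : Type} [Field k] {Adm : ℕ → Prop} {M : Cls k}

/-- Laurent monomials on the torus -/
noncomputable def crdMono {V : Type} [Fintype V] (b : V → ℤ) : Crd (Tor (k := k) V) where
  val W _ _ s := ((∏ v, s v ^ b v : Wˣ) : W)
  nat {W V'} _ _ _ _ f s := by
    change ((um f (∏ v, s v ^ b v) : V'ˣ) : V') = ((∏ v, (um f (s v)) ^ b v : V'ˣ) : V')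
    rw [map_prod]
    simp_rw [map_zpow]

/-- the part of the torus where the coordinates outside `σ` are one -/
def offOne {V : Type} (σ : V → Bool) : Pr (Tor (k := k) V) :=
  fun _ _ _ s => ∀ i, σ i = false → s i = 1

theorem offOne_iff {V : Type} [Fintype V] [DecidableEq V] (σ : V → Bool) {G : Type}
    [CommGroup G] (s : V → G) :
    (∀ i, σ i = false → s i = 1) ↔
      ∀ v, ∏ v', s v' ^ (if v = v' ∧ σ v = false then (1 : ℤ) else 0) = 1 := by
  have hc1 : ∀ v, ∏ v', s v' ^ (if v = v' ∧ σ v = false then (1 : ℤ) else 0) =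
      if σ v = false then s v else 1 := by
    intro v
    rw [Finset.prod_eq_single v]
    · by_cases h : σ v = false
      · simp [h]
      · simp [h]
    · intro v' _ hne
      rw [if_neg (fun h => hne h.1.symm), zpow_zero]
    · intro h
      exact absurd (Finset.mem_univ v) h
  simp_rw [hc1]
  constructor
  · intro h v
    by_cases h1 : σ v = false
    · rw [if_pos h1, h v h1]
    · rw [if_neg h1]
  · intro h v h1
    have := h v
    rwa [if_pos h1] at this

theorem good_offOne (hM : KClass k Adm M) {V : Type} [Fintype V]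
    (hdiag : ∀ (L : Type) [Finite L] (c : L → V → ℤ), DiagData c) (σ : V → Bool) :
    Good M (Tor V) (offOne σ) := by
  classical
  refine (good_diag hM (hdiag V (fun v v' => if v = v' ∧ σ v = false then (1 : ℤ) else 0))).congr
    (fun W _ _ s => ?_)
  exact (offOne_iff σ s).symm

/-- translations on the torus -/
theorem act_tor {J V : Type} [Fintype J] [DecidableEq J] [Fintype V] (σ : V → Bool)
    (b : J → V → ℤ) {e : ℕ} {L : J → V → ℤ} (hL : Dual b e L)
    (hL0 : ∀ j v, σ v = false → L j v = 0) :
    Nonempty (Act (k := k) (Tor V) (offOne σ) (fun j => crdMono (k := k) (b j))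
      (fun _ => e)) := by
  let act : ∀ (W : Type) [CommRing W] [Algebra k W], (J → Wˣ) → (V → Wˣ) → (V → Wˣ) :=
    fun W _ _ u s v => (∏ j, u j ^ L j v) * s v
  have hact : ∀ (W : Type) [CommRing W] [Algebra k W] (u : J → Wˣ) (s : V → Wˣ) (v : V),
      act W u s v = (∏ j, u j ^ L j v) * s v := fun _ _ _ _ _ _ => rfl
  have h1 : ∀ (W V' : Type) [CommRing W] [Algebra k W] [CommRing V'] [Algebra k V']
      (f : W →ₐ[k] V') (u : J → Wˣ) (s : V → Wˣ),
      (fun v => um f (act W u s v)) = act V' (fun l => um f (u l)) (fun v => um f (s v)) := by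
    intro W V' _ _ _ _ f u s
    funext v
    change um f ((∏ j, u j ^ L j v) * s v) = (∏ j, um f (u j) ^ L j v) * um f (s v)
    rw [map_mul, map_prod]
    simp_rw [map_zpow]
  have h2 : ∀ (W : Type) [CommRing W] [Algebra k W] (u : J → Wˣ) (s : V → Wˣ),
      (∀ v, σ v = false → s v = 1) → ∀ v, σ v = false → act W u s v = 1 := by
    intro W _ _ u s hs v hv
    rw [hact, hs v hv, mul_one]
    apply Finset.prod_eq_one
    intro j _
    rw [hL0 j v hv, zpow_zero]
  have h3 : ∀ (W : Type) [CommRing W] [Algebra k W] (u : J → Wˣ) (s : V → Wˣ),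
      act W u⁻¹ (act W u s) = s := by
    intro W _ _ u s
    funext v
    rw [hact, hact, ← mul_assoc, ← Finset.prod_mul_distrib]
    have : ∏ j, u⁻¹ j ^ L j v * u j ^ L j v = 1 := by
      apply Finset.prod_eq_one
      intro j _
      rw [Pi.inv_apply, inv_zpow, inv_mul_cancel]
    rw [this, one_mul]
  have h4 : ∀ (W : Type) [CommRing W] [Algebra k W] (u : J → Wˣ) (s : V → Wˣ) (j : J),
      ((∏ v, act W u s v ^ b j v : Wˣ) : W) =
        ((u j ^ e : Wˣ) : W) * ((∏ v, s v ^ b j v : Wˣ) : W) := by
    intro W _ _ u s j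
    rw [← Units.val_mul]
    congr 1
    simp_rw [hact, mul_zpow]
    rw [Finset.prod_mul_distrib]
    congr 1
    have := dual_prod hL u 1 j
    simpa using this
  exact ⟨{ act := fun W _ _ u s => act W u s
           nat := fun W V' _ _ _ _ f u s _ => h1 W V' f u s
           pres := fun W _ _ u s hs => h2 W u s hs
           inv := fun W _ _ u s _ => h3 W u s
           eq := fun W _ _ u s _ j => h4 W u s j }⟩

/-- equations in independent Laurent monomials on a torus -/
theorem good_tor_mono (hM : KClass k Adm M) {J V : Type} [Fintype J] [DecidableEq J] [Fintype V]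
    (hdiag : ∀ (L : Type) [Finite L] (c : L → V → ℤ), DiagData c) (σ : V → Bool)
    (b : J → V → ℤ) (hb : ∀ j v, σ v = false → b j v = 0) {e : ℕ} {L : J → V → ℤ} (he : Adm e)
    (hL : Dual b e L) {S : Set (MvPolynomial J k)} (hS : UG Adm M S) :
    Good M (Tor V) (fun W _ _ s => offOne σ W s ∧
      VS S W (fun j => ((∏ v, s v ^ b j v : Wˣ) : W))) := by
  classical
  have hLd : Dual b e (fun j v => if σ v then L j v else 0) := by
    intro i j
    rw [← hL i j]
    apply Finset.sum_congr rfl
    intro v _
    cases h : σ v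
    · rw [hb j v h]
      simp
    · simp [h]
  have hEM := good_offOne hM hdiag σ
  have hact := act_tor (k := k) σ b hLd (fun j v hv => by simp [hv])
  suffices hsp : ∀ ε : J → Bool, Good M (Tor V) (fun W _ _ s => offOne σ W s ∧
      ∀ j, (crdMono (k := k) (b j)).val W s = bt W (ε j)) by
    have h := hS (Tor V) (offOne σ) (fun j => crdMono (k := k) (b j)) (fun _ => e)
      (hEM.ft hM) (fun _ => he) hact hsp
    exact h
  intro ε
  by_cases hcase : ∀ j, ε j = true
  · let c : V ⊕ J → V → ℤ := Sum.elim
      (fun v v' => if v = v' ∧ σ v = false then 1 else 0) b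
    refine (good_diag hM (hdiag _ c)).congr (fun W _ _ s => ?_)
    constructor
    · intro h1
      refine ⟨(offOne_iff σ s).2 (fun v => h1 (Sum.inl v)), fun j => ?_⟩
      rw [hcase j]
      change ((∏ v, s v ^ b j v : Wˣ) : W) = 1
      rw [← Units.val_one]
      congr 1
      exact h1 (Sum.inr j)
    · rintro ⟨h1, h2⟩ l
      cases l with
      | inl v => exact (offOne_iff σ s).1 h1 v
      | inr j =>
        have h3 := h2 j
        rw [hcase j] at h3
        ext
        exact h3
  · push Not at hcase
    obtain ⟨j, hj⟩ := hcase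
    have hft : Good (Ft k) (Tor V) (fun W _ _ s => offOne σ W s ∧
        ∀ j, (crdMono (k := k) (b j)).val W s = bt W (ε j)) :=
      (hEM.ft hM).ft_eqs (fun j => crdMono (k := k) (b j)) (fun j => Crd.bt _ (ε j))
    apply hft.empty hM
    rintro W _ _ s ⟨-, h2⟩
    have h3 := h2 j
    simp only [ne_eq, Bool.not_eq_true] at hj
    rw [hj] at h3
    have h4 : IsUnit (0 : W) := by
      have : IsUnit (bt W false) := by
        rw [← h3]
        exact Units.isUnit _
      exact this
    exact subsingleton_of_zero_eq_one (isUnit_zero_iff.1 h4)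

end Pool.Agent.Helper62.RO
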